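import Pool.Agent.X228.GS.Core

set_option autoImplicit false

/-!
# Growth of the regions and the colouring, for graphs whose degrees are within a constant factor
-/

namespace Pool.Agent.X228.GS

open Finset Pool.Agent.Y394.AT

open Classical in
/-- **Growth.** -/
theorem growth' (N : ℕ) (δf D0 : ℝ → ℝ) (hδf : ∀ ε, 0 < ε → 0 < δf ε) :
    ∀ (k : ℕ) (ε : ℝ), 0 < ε → ∃ C : ℝ, 0 ≤ C ∧ ∃ d1 : ℝ, ∀ (V : Type) [Fintype V]
      (G : SimpleGraph V) (d : ℝ), d1 ≤ d → 1 ≤ d → Le G d →
      (∀ ε, 0 < ε → D0 ε ≤ d → Heavy G d ε (δf ε)) →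
      (∀ X : Finset V, Pool.Agent.W259.GS.Sh G X Set.univ → X.card < N) →
      ∀ u, ∃ K : Finset V, (K.card : ℝ) ≤ C * d ∧
        ∀ y, Rch G k u y → ((nb G y \ K).card : ℝ) ≤ ε * d := by
  intro k
  induction k with
  | zero =>
    intro ε hε
    refine ⟨1, zero_le_one, 0, ?_⟩
    intro V _ G d _ hd hreg _ _ u
    refine ⟨nb G u, ?_, ?_⟩
    · rw [one_mul]
      exact hreg u
    · intro y hy
      rw [hy.zero, Finset.sdiff_self]
      simp only [Finset.card_empty, Nat.cast_zero]
      positivity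
  | succ k ih =>
    intro ε hε
    have hδ : 0 < δf ε := hδf ε hε
    set δ := δf ε with hδd
    set ε' : ℝ := δ / 8 with hε'
    have hε'0 : 0 < ε' := by positivity
    obtain ⟨C', hC'0, d1', hih⟩ := ih ε' hε'0
    set η : ℝ := ε' / (C' + 1) with hη
    have hη0 : 0 < η := by positivity
    obtain ⟨M, hM⟩ := packing_unif N η hη0
    refine ⟨M * (2 / δ), by positivity, max d1' (D0 ε), ?_⟩
    intro V _ G d hd1 hd hreg hheavy hsh u
    have hd0 : 0 < d := by linarith
    obtain ⟨K', hK'c, hK'⟩ := hih V G d ((le_max_left _ _).trans hd1) hd hreg hheavy hsh u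
    have hhe := hheavy ε hε ((le_max_right _ _).trans hd1)
    set K2 := insert u K' with hK2
    have hK2c : (K2.card : ℝ) ≤ (C' + 1) * d := by
      have h1 : K2.card ≤ K'.card + 1 := Finset.card_insert_le _ _
      have h2 : (K2.card : ℝ) ≤ K'.card + 1 := by exact_mod_cast h1
      linarith
    have hηK : η * (K2.card : ℝ) ≤ ε' * d := by
      calc η * (K2.card : ℝ) ≤ η * ((C' + 1) * d) := mul_le_mul_of_nonneg_left hK2c hη0.le
        _ = ε' * d := by
          rw [hη]
          field_simp
    obtain ⟨U, hUX, hUfar, hUnet⟩ := exists_net ((univ : Finset V).filter (fun x => Rch G k u x))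
      (fun x a => η * (K2.card : ℝ) ≤ Set.ncard {z | z ∈ K2 ∧ ¬ (G.Adj x z ↔ G.Adj a z)})
      (by
        intro x a hxa
        have : {z | z ∈ K2 ∧ ¬ (G.Adj a z ↔ G.Adj x z)} =
            {z | z ∈ K2 ∧ ¬ (G.Adj x z ↔ G.Adj a z)} := by
          ext z
          simp only [Set.mem_ofPred_eq]
          tauto
        rw [this]
        exact hxa)
    have hUM : U.card < M := hM V G K2 (Finset.insert_nonempty _ _) hsh U hUfar
    refine ⟨U.biUnion (fun a => (univ : Finset V).filter
      (fun w => δ / 2 * d ≤ (cd G a w : ℝ))), ?_, ?_⟩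
    · calc ((U.biUnion (fun a => (univ : Finset V).filter
            (fun w => δ / 2 * d ≤ (cd G a w : ℝ)))).card : ℝ)
          ≤ ∑ a ∈ U, (((univ : Finset V).filter
            (fun w => δ / 2 * d ≤ (cd G a w : ℝ))).card : ℝ) := by
            exact_mod_cast Finset.card_biUnion_le
        _ ≤ ∑ a ∈ U, d / (δ / 2) :=
            Finset.sum_le_sum fun a _ => heavy_card' hreg hd0 (δ / 2) (by positivity) a
        _ = (U.card : ℝ) * (d / (δ / 2)) := by rw [Finset.sum_const, nsmul_eq_mul]
        _ ≤ (M : ℝ) * (d / (δ / 2)) := by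
            apply mul_le_mul_of_nonneg_right _ (by positivity)
            exact_mod_cast hUM.le
        _ = M * (2 / δ) * d := by
            field_simp
    · intro y hy
      obtain ⟨x, hx, hxy⟩ := hy.step
      refine le_trans ?_ (hhe x y hxy)
      have hsub : nb G y \ U.biUnion (fun a => (univ : Finset V).filter
          (fun w => δ / 2 * d ≤ (cd G a w : ℝ))) ⊆
          (nb G y).filter (fun w => (cd G x w : ℝ) < δ * d) := by
        intro w hw
        obtain ⟨hw1, hw2⟩ := Finset.mem_sdiff.1 hw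
        refine Finset.mem_filter.2 ⟨hw1, ?_⟩
        by_contra hcon
        push Not at hcon
        apply hw2
        obtain ⟨a, haU, ha⟩ := hUnet x (Finset.mem_filter.2 ⟨Finset.mem_univ _, hx⟩)
        rw [Finset.mem_biUnion]
        refine ⟨a, haU, Finset.mem_filter.2 ⟨Finset.mem_univ _, ?_⟩⟩
        rcases ha with ha | ha
        · rw [← ha]
          refine le_trans ?_ hcon
          apply mul_le_mul_of_nonneg_right _ hd0.le
          linarith
        · rw [not_le] at ha
          -- cd x w ≤ cd a w + |nb x \ K'| + |diff|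
          have h1 : cd G x w ≤ cd G a w + ((nb G x \ K').card +
              Set.ncard {z | z ∈ K2 ∧ ¬ (G.Adj x z ↔ G.Adj a z)}) := by
            have h2 : {z | z ∈ K2 ∧ ¬ (G.Adj x z ↔ G.Adj a z)} =
                ((K2.filter (fun z => ¬ (G.Adj x z ↔ G.Adj a z)) : Finset V) : Set V) := by
              ext z
              simp
            rw [h2, Set.ncard_coe_finset]
            have h3 : ((univ : Finset V).filter (fun z => G.Adj x z ∧ G.Adj w z)) ⊆
                ((univ : Finset V).filter (fun z => G.Adj a z ∧ G.Adj w z)) ∪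
                ((nb G x \ K') ∪ K2.filter (fun z => ¬ (G.Adj x z ↔ G.Adj a z))) := by
              intro z hz
              obtain ⟨_, hxz, hwz⟩ := Finset.mem_filter.1 hz
              rw [Finset.mem_union, Finset.mem_union, Finset.mem_filter, Finset.mem_sdiff,
                mem_nb, Finset.mem_filter]
              by_cases haz : G.Adj a z
              · exact Or.inl ⟨Finset.mem_univ _, haz, hwz⟩
              · right
                by_cases hzK : z ∈ K'
                · right
                  exact ⟨Finset.mem_insert_of_mem hzK, fun h => haz (h.1 hxz)⟩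
                · exact Or.inl ⟨hxz, hzK⟩
            unfold cd
            refine (Finset.card_le_card h3).trans ((Finset.card_union_le _ _).trans ?_)
            exact Nat.add_le_add_left (Finset.card_union_le _ _) _
          have h1' : (cd G x w : ℝ) ≤ cd G a w + (((nb G x \ K').card : ℝ) +
              (Set.ncard {z | z ∈ K2 ∧ ¬ (G.Adj x z ↔ G.Adj a z)} : ℝ)) := by exact_mod_cast h1
          have h2 := hK' x hx
          have h3 : ε' * d = δ * d / 8 := by
            rw [hε']
            ring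
          have h4 : 0 < δ * d := by positivity
          linarith
      exact_mod_cast Finset.card_le_card hsub

open Classical in
/-- the symmetric difference of the neighbourhoods -/
noncomputable def sd {V : Type} [Fintype V] (G : SimpleGraph V) (u v : V) : ℕ :=
  ((univ : Finset V).filter (fun w => ¬ (G.Adj u w ↔ G.Adj v w))).card

theorem sd_comm {V : Type} [Fintype V] (G : SimpleGraph V) (u v : V) : sd G u v = sd G v u := by
  classical
  unfold sd
  congr 1
  apply Finset.filter_congr
  intro w _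
  tauto

theorem sd_self {V : Type} [Fintype V] (G : SimpleGraph V) (u : V) : sd G u u = 0 := by
  classical
  unfold sd
  rw [Finset.card_eq_zero, Finset.filter_eq_empty_iff]
  intro w _
  tauto

theorem sd_tri {V : Type} [Fintype V] (G : SimpleGraph V) (u v w : V) :
    sd G u w ≤ sd G u v + sd G v w := by
  classical
  unfold sd
  refine le_trans (Finset.card_le_card ?_) (Finset.card_union_le _ _)
  intro x hx
  rw [Finset.mem_union, Finset.mem_filter, Finset.mem_filter]
  have h := (Finset.mem_filter.1 hx).2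
  by_cases h1 : (G.Adj u x ↔ G.Adj v x)
  · right
    refine ⟨Finset.mem_univ _, ?_⟩
    tauto
  · exact Or.inl ⟨Finset.mem_univ _, h1⟩

open Classical in
/-- **The colouring.** -/
theorem colour' (N : ℕ) (δf D0 : ℝ → ℝ) (hδf : ∀ ε, 0 < ε → 0 < δf ε) (K0 : ℕ) (η : ℝ)
    (hη0 : 0 < η) (hηK : η * K0 < 1) :
    ∃ C : ℕ, ∃ d1 : ℝ, ∀ (V : Type) [Fintype V]
      (G : SimpleGraph V) (d : ℝ), d1 ≤ d → 1 ≤ d → Le G d → Ge G K0 d →
      (∀ ε, 0 < ε → D0 ε ≤ d → Heavy G d ε (δf ε)) →
      (∀ X : Finset V, Pool.Agent.W259.GS.Sh G X Set.univ → X.card < N) →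
      (∀ v v', G.Adj v v' → 2 * η * d ≤ (sd G v v' : ℝ)) →
      G.Colorable C := by
  obtain ⟨C, hC0, d1, hgr⟩ := growth' N δf D0 hδf 5 (η / 4) (by positivity)
  obtain ⟨M, hM⟩ := packing_unif N (η / 2 / (C + 1)) (by positivity)
  refine ⟨M + 1, d1, ?_⟩
  intro V _ G d hd1 hd hreg hge hheavy hsh hnear
  have hd0 : 0 < d := by linarith
  obtain ⟨Z, hZX, hZfar, hZnet⟩ := exists_net
    ((univ : Finset V).filter (fun v => 0 < (nb G v).card))
    (fun v z => η * d ≤ (sd G v z : ℝ)) (fun u v huv => by rw [sd_comm]; exact huv)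
  have hcen : ∀ v, ∃ c, 0 < (nb G v).card → c ∈ Z ∧ (sd G v c : ℝ) < η * d := by
    intro v
    by_cases hv : 0 < (nb G v).card
    · obtain ⟨a, haZ, ha⟩ := hZnet v (Finset.mem_filter.2 ⟨Finset.mem_univ _, hv⟩)
      refine ⟨a, fun _ => ⟨haZ, ?_⟩⟩
      rcases ha with ha | ha
      · rw [← ha, sd_self]
        push_cast
        positivity
      · push Not at ha
        exact ha
    · exact ⟨v, fun h => absurd h hv⟩
  choose c hc using hcen
  -- the graph of the regions
  set Q : SimpleGraph V :=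
    { Adj := fun z z' => z ≠ z' ∧ z ∈ Z ∧ z' ∈ Z ∧ Rch G 5 z z'
      symm := ⟨fun z z' h => ⟨h.1.symm, h.2.2.1, h.2.1, h.2.2.2.symm⟩⟩
      loopless := ⟨fun z h => h.1 rfl⟩ } with hQ
  have hQadj : ∀ z z', Q.Adj z z' ↔ (z ≠ z' ∧ z ∈ Z ∧ z' ∈ Z ∧ Rch G 5 z z') :=
    fun _ _ => Iff.rfl
  have hQdeg : ∀ z, (nb Q z).card ≤ M := by
    intro z
    obtain ⟨K, hKc, hK⟩ := hgr V G d hd1 hd hreg hheavy hsh z
    set K2 := insert z K with hK2
    have hK2c : (K2.card : ℝ) ≤ (C + 1) * d := by
      have h1 : K2.card ≤ K.card + 1 := Finset.card_insert_le _ _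
      have h2 : (K2.card : ℝ) ≤ K.card + 1 := by exact_mod_cast h1
      linarith
    refine (hM V G K2 (Finset.insert_nonempty _ _) hsh (nb Q z) ?_).le
    intro a ha b hb hab
    rw [mem_nb, hQadj] at ha hb
    have hfar := hZfar a ha.2.2.1 b hb.2.2.1 hab
    have hKa := hK a ha.2.2.2
    have hKb := hK b hb.2.2.2
    have h1 : sd G a b ≤ ((nb G a \ K).card + (nb G b \ K).card) +
        Set.ncard {w | w ∈ K2 ∧ ¬ (G.Adj a w ↔ G.Adj b w)} := by
      have h2 : {w | w ∈ K2 ∧ ¬ (G.Adj a w ↔ G.Adj b w)} =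
          ((K2.filter (fun w => ¬ (G.Adj a w ↔ G.Adj b w)) : Finset V) : Set V) := by
        ext w
        simp
      rw [h2, Set.ncard_coe_finset]
      have h3 : (univ : Finset V).filter (fun w => ¬ (G.Adj a w ↔ G.Adj b w)) ⊆
          ((nb G a \ K) ∪ (nb G b \ K)) ∪ K2.filter (fun w => ¬ (G.Adj a w ↔ G.Adj b w)) := by
        intro w hw
        have hw' := (Finset.mem_filter.1 hw).2
        rw [Finset.mem_union, Finset.mem_union, Finset.mem_sdiff, Finset.mem_sdiff,
          Finset.mem_filter, mem_nb, mem_nb]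
        by_cases hwK : w ∈ K
        · exact Or.inr ⟨Finset.mem_insert_of_mem hwK, hw'⟩
        · left
          by_cases haw : G.Adj a w
          · exact Or.inl ⟨haw, hwK⟩
          · right
            refine ⟨?_, hwK⟩
            by_contra hbw
            exact hw' ⟨fun h => absurd h haw, fun h => absurd h hbw⟩
      unfold sd
      refine (Finset.card_le_card h3).trans ((Finset.card_union_le _ _).trans ?_)
      exact Nat.add_le_add_right (Finset.card_union_le _ _) _
    have h1' : (sd G a b : ℝ) ≤ (((nb G a \ K).card : ℝ) + ((nb G b \ K).card : ℝ)) +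
        (Set.ncard {w | w ∈ K2 ∧ ¬ (G.Adj a w ↔ G.Adj b w)} : ℝ) := by exact_mod_cast h1
    have h3 : η / 2 / (C + 1) * (K2.card : ℝ) ≤ η / 2 * d := by
      calc η / 2 / (C + 1) * (K2.card : ℝ) ≤ η / 2 / (C + 1) * ((C + 1) * d) :=
            mul_le_mul_of_nonneg_left hK2c (by positivity)
        _ = η / 2 * d := by field_simp
    linarith
  obtain ⟨col⟩ := colorable_of_deg Q M hQdeg
  refine ⟨SimpleGraph.Coloring.mk (fun v => col (c v)) ?_⟩
  intro v v' hvv' hcol
  have hv : 0 < (nb G v).card := Finset.card_pos.2 ⟨v', (mem_nb G v v').2 hvv'⟩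
  have hv' : 0 < (nb G v').card := Finset.card_pos.2 ⟨v, (mem_nb G v' v).2 hvv'.symm⟩
  obtain ⟨hcv1, hcv2⟩ := hc v hv
  obtain ⟨hcv'1, hcv'2⟩ := hc v' hv'
  have hcom : ∀ x z, 0 < (nb G x).card → (sd G x z : ℝ) < η * d →
      ∃ s, G.Adj x s ∧ G.Adj z s := by
    intro x z hx hxz
    by_contra hcon
    push Not at hcon
    have h1 : nb G x ⊆ (univ : Finset V).filter (fun w => ¬ (G.Adj x w ↔ G.Adj z w)) := by
      intro w hw
      rw [mem_nb] at hw
      exact Finset.mem_filter.2 ⟨Finset.mem_univ _, fun h => hcon w hw (h.1 hw)⟩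
    have h2 : ((nb G x).card : ℝ) ≤ (sd G x z : ℝ) := by
      unfold sd
      exact_mod_cast Finset.card_le_card h1
    have h3 := hge x (Finset.card_pos.1 hx)
    have h4 : (K0 : ℝ) * ((nb G x).card : ℝ) ≤ K0 * (η * d) :=
      mul_le_mul_of_nonneg_left (h2.trans hxz.le) (Nat.cast_nonneg _)
    have h5 : (K0 : ℝ) * (η * d) = (η * K0) * d := by ring
    have h6 : (η * K0) * d < 1 * d := mul_lt_mul_of_pos_right hηK hd0
    linarith
  have hne : c v ≠ c v' := by
    intro heq
    rw [← heq] at hcv'2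
    have h1 := sd_tri G v (c v) v'
    rw [sd_comm G (c v) v'] at h1
    have h1' : (sd G v v' : ℝ) ≤ sd G v (c v) + sd G v' (c v) := by exact_mod_cast h1
    have h3 := hnear v v' hvv'
    linarith
  have hQ' : Q.Adj (c v) (c v') := by
    rw [hQadj]
    refine ⟨hne, hcv1, hcv'1, ?_⟩
    obtain ⟨s, hs1, hs2⟩ := hcom v (c v) hv hcv2
    obtain ⟨s', hs'1, hs'2⟩ := hcom v' (c v') hv' hcv'2
    refine ⟨SimpleGraph.Walk.cons hs2 (SimpleGraph.Walk.cons hs1.symm
      (SimpleGraph.Walk.cons hvv' (SimpleGraph.Walk.cons hs'1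
        (SimpleGraph.Walk.cons hs'2.symm SimpleGraph.Walk.nil)))), ?_⟩
    simp
  exact col.valid hQ' hcol

end Pool.Agent.X228.GS
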