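import Pool.Agent.Y394.AT.Main

set_option autoImplicit false

/-!
# Graphs with boundedly many classes of arcs which see the same codegrees
-/

namespace Pool.Agent.X228.GS

open Finset Pool.Agent.Y394.AT

open Classical in
/-- the neighbours `w` of `b` with `κ b w = j` -/
noncomputable def cn {V ι : Type} [Fintype V] (G : SimpleGraph V) (κ : V → V → ι) (j : ι)
    (b : V) : Finset V :=
  (nb G b).filter (fun w => κ b w = j)

open Classical in
theorem mem_cn {V ι : Type} [Fintype V] (G : SimpleGraph V) (κ : V → V → ι) (j : ι)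
    (b w : V) : w ∈ cn G κ j b ↔ G.Adj b w ∧ κ b w = j := by
  unfold cn
  rw [Finset.mem_filter, mem_nb]

open Classical in
theorem cn_sub {V ι : Type} [Fintype V] (G : SimpleGraph V) (κ : V → V → ι) (j : ι)
    (b : V) : cn G κ j b ⊆ nb G b := Finset.filter_subset _ _

open Classical in
/-- light continuations of the arc `a b` in the class `j` -/
noncomputable def lj {V ι : Type} [Fintype V] (G : SimpleGraph V) (κ : V → V → ι) (j : ι)
    (t : ℕ) (a b : V) : Finset V :=
  (cn G κ j b).filter (fun w => w ≠ a ∧ ¬ G.Adj a w ∧ cd G a w < t)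

open Classical in
/-- continuations of the arc `a b` in the class `j` with small codegree -/
noncomputable def qj {V ι : Type} [Fintype V] (G : SimpleGraph V) (κ : V → V → ι) (j : ι)
    (t : ℕ) (a b : V) : Finset V :=
  (cn G κ j b).filter (fun w => cd G a w < t)

/-- Arcs of the same class see comparable codegrees. -/
structure Hom {V ι : Type} [Fintype V] (G : SimpleGraph V) (κ : V → V → ι) (r K : ℕ) :
    Prop where
  deg : ∀ u v, (nb G u).Nonempty → (nb G v).Nonempty → ∀ j,
    (cn G κ j u).card ≤ K * (cn G κ j v).card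
  rev : ∀ a b c d, G.Adj a b → G.Adj c d → κ a b = κ c d → κ b a = κ d c
  lc : ∀ a b c d, G.Adj a b → G.Adj c d → κ a b = κ c d → ∀ j t,
    (lj G κ j t a b).card ≤ K * (lj G κ j (K * t) c d).card
  qc : ∀ a b c d, G.Adj a b → G.Adj c d → κ a b = κ c d → ∀ j t,
    (qj G κ j t a b).card ≤ K * (qj G κ j (K * t) c d).card
  cod : ∀ a b c d, G.Adj a b → G.Adj c d → κ a b = κ c d →
    (nb G a).card - cd G a b ≤ K * ((nb G c).card - cd G c d)
  big : ∀ a b, G.Adj a b → (nb G a).card ≤ r * (cn G κ (κ a b) a).card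

/-- degrees at most `d` -/
def Le {V : Type} [Fintype V] (G : SimpleGraph V) (d : ℝ) : Prop :=
  ∀ v, ((nb G v).card : ℝ) ≤ d

/-- degrees `0` or at least `d / K` -/
def Ge {V : Type} [Fintype V] (G : SimpleGraph V) (K : ℕ) (d : ℝ) : Prop :=
  ∀ v, (nb G v).Nonempty → d ≤ K * ((nb G v).card : ℝ)

open Classical in
/-- **No two classes with light continuations in each other.** -/
theorem no_both (m : ℕ) (F : SimpleGraph (Fin m)) (hF : F.IsAcyclic) (k : ℕ) (hk : 1 ≤ k)
    (r K : ℕ) (hK : 1 ≤ K) (lam : ℝ) (hlam : 0 < lam) (hlam1 : lam ≤ 1) :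
    ∃ δ : ℝ, 0 < δ ∧ δ ≤ 1 ∧ ∃ d0 : ℝ, ∀ (V ι : Type) [Fintype V]
      (G : SimpleGraph V) (κ : V → V → ι) (d : ℝ), d0 ≤ d → 1 ≤ d → Le G d → Hom G κ r K →
      G.CliqueFree (k + 1) → IsEmpty (F ↪g G) → ∀ i j : ι,
      (∀ z x, G.Adj z x → κ z x = i → ((lj G κ j ⌈δ * d⌉₊ z x).card : ℝ) < lam * d) ∨
      (∀ z x, G.Adj z x → κ z x = j → ((lj G κ i ⌈δ * d⌉₊ z x).card : ℝ) < lam * d) := by
  have hKR : (1 : ℝ) ≤ K := by exact_mod_cast hK
  have hK0 : (0 : ℝ) < K := by linarith
  obtain ⟨T, hT, ⟨ι0⟩⟩ := Pool.Agent.H367R3.forest_in_tree F hF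
  obtain ⟨δe, hδe, d0, hemb⟩ := embed_tree (m + 1) k (by omega) hk (lam / K) (by positivity)
    (by
      rw [div_le_one hK0]
      linarith)
  refine ⟨min (δe / (2 * K)) 1, lt_min (by positivity) one_pos, min_le_right _ _,
    max d0 (2 * K / δe), ?_⟩
  intro V ι _ G κ d hd hd1 hreg hhom hfree hemp i j
  have hd0 : 0 < d := by linarith
  set δ : ℝ := min (δe / (2 * K)) 1 with hδ
  have hδ0 : 0 < δ := lt_min (by positivity) one_pos
  have hδe' : δ ≤ δe / (2 * K) := min_le_left _ _
  have hdd : 2 * K / δe ≤ d := (le_max_right _ _).trans hd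
  obtain ⟨t, ht⟩ : ∃ t : ℕ, t = ⌈δ * d⌉₊ := ⟨_, rfl⟩
  rw [← ht]
  have htb : (K : ℝ) * t ≤ δe * d := by
    have h1 : (t : ℝ) ≤ δ * d + 1 := by
      rw [ht]
      exact (Nat.ceil_lt_add_one (by positivity)).le
    have h2 : δ * d ≤ δe / (2 * K) * d := mul_le_mul_of_nonneg_right hδe' hd0.le
    have h3 : (K : ℝ) ≤ δe * d / 2 := by
      rw [div_le_iff₀ hδe] at hdd
      linarith
    have h4 : (K : ℝ) * (δe / (2 * K) * d) = δe * d / 2 := by field_simp
    calc (K : ℝ) * t ≤ K * (δe / (2 * K) * d + 1) :=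
          mul_le_mul_of_nonneg_left (by linarith) hK0.le
      _ = δe * d / 2 + K := by rw [mul_add, h4, mul_one]
      _ ≤ δe * d := by linarith
  by_contra hcon
  push Not at hcon
  obtain ⟨⟨z1, x1, hzx1, hk1, hc1⟩, ⟨z2, x2, hzx2, hk2, hc2⟩⟩ := hcon
  obtain ⟨A, hA⟩ : ∃ A : V → V → Prop, ∀ z x, A z x ↔ (G.Adj z x ∧ (κ z x = i ∨ κ z x = j)) :=
    ⟨_, fun _ _ => Iff.rfl⟩
  obtain ⟨Λ, hΛ⟩ : ∃ Λ : V → V → Finset V, ∀ z x,
      Λ z x = lj G κ (if κ z x = i then j else i) (K * t) z x := ⟨_, fun _ _ => rfl⟩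
  have hsys : LightSystem G d δe (lam / K) A Λ :=
    { adj := fun z x h => ((hA z x).1 h).1
      deg := fun v => by
        have := hreg v
        unfold nb at this
        exact this
      cont := by
        intro z x hzx w hw
        rw [hΛ] at hw
        unfold lj at hw
        obtain ⟨h1, h2, h3, _⟩ := Finset.mem_filter.1 hw
        rw [mem_cn] at h1
        refine ⟨(hA x w).2 ⟨h1.1, ?_⟩, h2, h3⟩
        rw [h1.2]
        by_cases h : κ z x = i
        · rw [if_pos h]
          exact Or.inr rfl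
        · rw [if_neg h]
          exact Or.inl rfl
      large := by
        intro z x hzx
        rw [hA] at hzx
        rw [hΛ]
        by_cases h : κ z x = i
        · simp only [h, if_true]
          have h5 := hhom.lc z1 x1 z x hzx1 hzx.1 (by rw [h, hk1]) j t
          have h6 : ((lj G κ j t z1 x1).card : ℝ) ≤ K * (lj G κ j (K * t) z x).card := by
            exact_mod_cast h5
          rw [div_mul_eq_mul_div, div_le_iff₀ hK0]
          linarith
        · simp only [h, if_false]
          have h' : κ z x = j := by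
            rcases hzx.2 with h2 | h2
            · exact absurd h2 h
            · exact h2
          have h5 := hhom.lc z2 x2 z x hzx2 hzx.1 (by rw [h', hk2]) i t
          have h6 : ((lj G κ i t z2 x2).card : ℝ) ≤ K * (lj G κ i (K * t) z x).card := by
            exact_mod_cast h5
          rw [div_mul_eq_mul_div, div_le_iff₀ hK0]
          linarith
      light := by
        intro z y
        by_cases hex : ∃ x, A z x ∧ y ∈ Λ z x
        · obtain ⟨x, hzx, hy⟩ := hex
          rw [hΛ] at hy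
          unfold lj at hy
          obtain ⟨_, _, _, h4⟩ := Finset.mem_filter.1 hy
          have h4' : (cd G z y : ℝ) ≤ δe * d := by
            refine le_trans ?_ htb
            exact_mod_cast h4.le
          refine le_trans ?_ h4'
          have : ((univ : Finset V).filter (fun x => A z x ∧ y ∈ Λ z x)).card ≤ cd G z y := by
            unfold cd
            apply Finset.card_le_card
            intro x' hx'
            obtain ⟨_, h5, h6⟩ := Finset.mem_filter.1 hx'
            rw [hΛ] at h6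
            unfold lj at h6
            have h7 := (mem_cn G κ _ x' y).1 (Finset.mem_filter.1 h6).1
            exact Finset.mem_filter.2 ⟨Finset.mem_univ _, ((hA z x').1 h5).1, h7.1.symm⟩
          exact_mod_cast this
        · push Not at hex
          have : (univ : Finset V).filter (fun x => A z x ∧ y ∈ Λ z x) = ∅ := by
            rw [Finset.filter_eq_empty_iff]
            intro x _ h
            exact hex x h.1 h.2
          rw [this]
          simp only [Finset.card_empty, Nat.cast_zero]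
          positivity }
  obtain ⟨f, hf1, hf2⟩ := hemb V G d A Λ ((le_max_left _ _).trans hd) hsys
    ⟨z1, x1, (hA z1 x1).2 ⟨hzx1, Or.inl hk1⟩⟩ hfree m (by omega)
    (Fin (m + 1)) T hT (by simp)
  let g : T ↪g G := { toFun := f, inj' := hf1, map_rel_iff' := fun {a b} => (hf2 a b).symm }
  exact hemp.false (ι0.trans g)

open Classical in
/-- the set of vertices of large codegree with `a` -/
theorem heavy_card' {V : Type} [Fintype V] {G : SimpleGraph V} {d : ℝ} (h : Le G d)
    (hd : 0 < d) (δ : ℝ) (hδ : 0 < δ) (a : V) :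
    ((((univ : Finset V).filter (fun w => δ * d ≤ (cd G a w : ℝ))).card : ℝ)) ≤ d / δ := by
  have h1 : ∑ w : V, (cd G a w : ℝ) ≤ d * d := by
    have h2 : ∑ w : V, cd G a w = ∑ x ∈ nb G a, (nb G x).card := by
      have h3 := Finset.sum_card_bipartiteAbove_eq_sum_card_bipartiteBelow
        (s := (univ : Finset V)) (t := nb G a) (fun w x => G.Adj w x)
      unfold Finset.bipartiteAbove Finset.bipartiteBelow at h3
      have h4 : ∀ w : V, cd G a w = ((nb G a).filter (fun x => G.Adj w x)).card := by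
        intro w
        unfold cd nb
        rw [Finset.filter_filter]
      rw [Finset.sum_congr rfl (fun w _ => h4 w), h3]
      apply Finset.sum_congr rfl
      intro x _
      congr 1
      ext w
      rw [Finset.mem_filter, mem_nb, G.adj_comm]
      simp
    have h3 : ∑ w : V, (cd G a w : ℝ) = ∑ x ∈ nb G a, ((nb G x).card : ℝ) := by
      exact_mod_cast h2
    rw [h3]
    calc ∑ x ∈ nb G a, ((nb G x).card : ℝ) ≤ ∑ x ∈ nb G a, d :=
          Finset.sum_le_sum fun x _ => h x
      _ = ((nb G a).card : ℝ) * d := by rw [Finset.sum_const, nsmul_eq_mul]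
      _ ≤ d * d := mul_le_mul_of_nonneg_right (h a) hd.le
  have h2 : (δ * d) * (((univ : Finset V).filter
      (fun w => δ * d ≤ (cd G a w : ℝ))).card : ℝ) ≤ d * d := by
    calc (δ * d) * (((univ : Finset V).filter (fun w => δ * d ≤ (cd G a w : ℝ))).card : ℝ)
        = ∑ w ∈ (univ : Finset V).filter (fun w => δ * d ≤ (cd G a w : ℝ)), δ * d := by
          rw [Finset.sum_const, nsmul_eq_mul, mul_comm]
      _ ≤ ∑ w ∈ (univ : Finset V).filter (fun w => δ * d ≤ (cd G a w : ℝ)), (cd G a w : ℝ) :=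
          Finset.sum_le_sum fun w hw => (Finset.mem_filter.1 hw).2
      _ ≤ ∑ w : V, (cd G a w : ℝ) :=
          Finset.sum_le_sum_of_subset_of_nonneg (Finset.filter_subset _ _)
            fun w _ _ => Nat.cast_nonneg _
      _ ≤ d * d := h1
  rw [le_div_iff₀ hδ]
  have h3 : ((((univ : Finset V).filter (fun w => δ * d ≤ (cd G a w : ℝ))).card : ℝ) * δ) * d ≤
      d * d := by linarith
  exact le_of_mul_le_mul_right h3 hd

open Classical in
/-- the set `W` -/
noncomputable def Wst {V : Type} [Fintype V] (G : SimpleGraph V) (δ d : ℝ) (b : V) : Finset V :=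
  (univ : Finset V).filter (fun w => w = b ∨ G.Adj b w ∨ δ * d ≤ (cd G b w : ℝ))

open Classical in
theorem Wst_card {V : Type} [Fintype V] {G : SimpleGraph V} {d δ : ℝ} (h : Le G d)
    (hd : 1 ≤ d) (hδ : 0 < δ) (hδ1 : δ ≤ 1) (b : V) : ((Wst G δ d b).card : ℝ) ≤ 3 * d / δ := by
  have hd0 : 0 < d := by linarith
  have h1 : Wst G δ d b ⊆ ({b} : Finset V) ∪ (nb G b ∪
      (univ : Finset V).filter (fun w => δ * d ≤ (cd G b w : ℝ))) := by
    intro w hw
    unfold Wst at hw
    rcases (Finset.mem_filter.1 hw).2 with h2 | h2 | h2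
    · rw [h2]
      exact Finset.mem_union_left _ (Finset.mem_singleton_self _)
    · exact Finset.mem_union_right _ (Finset.mem_union_left _ ((mem_nb G b w).2 h2))
    · exact Finset.mem_union_right _ (Finset.mem_union_right _
        (Finset.mem_filter.2 ⟨Finset.mem_univ _, h2⟩))
  have h2 : (Wst G δ d b).card ≤ 1 + ((nb G b).card +
      ((univ : Finset V).filter (fun w => δ * d ≤ (cd G b w : ℝ))).card) := by
    refine (Finset.card_le_card h1).trans ((Finset.card_union_le _ _).trans ?_)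
    rw [Finset.card_singleton]
    exact Nat.add_le_add_left (Finset.card_union_le _ _) _
  have h2' : ((Wst G δ d b).card : ℝ) ≤ 1 + (((nb G b).card : ℝ) +
      (((univ : Finset V).filter (fun w => δ * d ≤ (cd G b w : ℝ))).card : ℝ)) := by
    exact_mod_cast h2
  have h3 := heavy_card' h hd0 δ hδ b
  have h4 := h b
  have h5 : d ≤ d / δ := by
    rw [le_div_iff₀ hδ]
    nlinarith
  have h6 : 3 * d / δ = d / δ + d / δ + d / δ := by ring
  rw [h6]
  linarith

open Classical in
/-- **Pairs of neighbours with few common neighbours are rare.** -/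
theorem pairs {V ι : Type} [Fintype V] {G : SimpleGraph V} {κ : V → V → ι} {r K : ℕ}
    {d δ lam : ℝ} (hreg : Le G d) (hge : Ge G K d) (hhom : Hom G κ r K) (hd : 1 ≤ d)
    (hδ : 0 < δ) (hδ1 : δ ≤ 1) (hlam : 0 < lam) (i j : ι) (t : ℕ)
    (hii : ∀ z x, G.Adj z x → κ z x = i → ((lj G κ i ⌈δ * d⌉₊ z x).card : ℝ) < lam * d)
    (hij : ∀ z x, G.Adj z x → κ z x = i → ((lj G κ j ⌈δ * d⌉₊ z x).card : ℝ) < lam * d)
    (a b : V) (hab : G.Adj b a) (hi : κ b a = i) :
    ((cn G κ i b).card : ℝ) * (qj G κ j t a b).card ≤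
      K ^ 2 * (2 * lam * d ^ 2 + 9 * K ^ 2 * r * t * d / δ ^ 2) := by
  have hd0 : 0 < d := by linarith
  set t' : ℕ := K * t with ht'
  set D : ℕ := (cn G κ i b).card with hD
  set m : ℕ := (qj G κ j t a b).card with hm
  have hDpos : 0 < D := Finset.card_pos.2 ⟨a, (mem_cn G κ i b a).2 ⟨hab, hi⟩⟩
  have hnb : (nb G b).Nonempty := ⟨a, (mem_nb G b a).2 hab⟩
  -- the sum over the triples
  have hterm : ∀ z ∈ cn G κ i b, ∀ w ∈ cn G κ i z, m ≤ K * (qj G κ j t' w z).card := by
    intro z hz w hw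
    rw [mem_cn] at hw
    refine hhom.qc a b w z hab.symm hw.1.symm ?_ j t
    exact (hhom.rev z w b a hw.1 hab (by rw [hw.2, hi])).symm
  have hDz : ∀ z ∈ cn G κ i b, D ≤ K * (cn G κ i z).card := by
    intro z hz
    rw [mem_cn] at hz
    exact hhom.deg b z hnb ⟨b, (mem_nb G z b).2 hz.1.symm⟩ i
  have hT : D * (D * m) ≤
      K ^ 2 * ∑ z ∈ cn G κ i b, ∑ w ∈ cn G κ i z, (qj G κ j t' w z).card := by
    have h1 : ∀ z ∈ cn G κ i b, D * m ≤
        K ^ 2 * ∑ w ∈ cn G κ i z, (qj G κ j t' w z).card := by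
      intro z hz
      calc D * m ≤ (K * (cn G κ i z).card) * m := Nat.mul_le_mul_right _ (hDz z hz)
        _ = K * ∑ w ∈ cn G κ i z, m := by
            rw [Finset.sum_const, smul_eq_mul]
            ring
        _ ≤ K * ∑ w ∈ cn G κ i z, K * (qj G κ j t' w z).card :=
            Nat.mul_le_mul_left _ (Finset.sum_le_sum (hterm z hz))
        _ = K ^ 2 * ∑ w ∈ cn G κ i z, (qj G κ j t' w z).card := by
            rw [← Finset.mul_sum]
            ring
    calc D * (D * m) = ∑ z ∈ cn G κ i b, D * m := by rw [Finset.sum_const, smul_eq_mul]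
      _ ≤ ∑ z ∈ cn G κ i b, K ^ 2 * ∑ w ∈ cn G κ i z, (qj G κ j t' w z).card :=
          Finset.sum_le_sum h1
      _ = K ^ 2 * ∑ z ∈ cn G κ i b, ∑ w ∈ cn G κ i z, (qj G κ j t' w z).card := by
          rw [← Finset.mul_sum]
  -- the upper bound
  set W : Finset V := Wst G δ d b with hW
  have hWc := Wst_card hreg hd hδ hδ1 b
  have hout : ∀ z, G.Adj b z → ∀ l, (cn G κ l z).filter (fun w => w ∉ W) ⊆
      lj G κ l ⌈δ * d⌉₊ b z := by
    intro z hbz l w hw
    obtain ⟨h1, h2⟩ := Finset.mem_filter.1 hw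
    rw [hW] at h2
    unfold Wst at h2
    rw [Finset.mem_filter] at h2
    push Not at h2
    obtain ⟨h3, h4, h5⟩ := h2 (Finset.mem_univ _)
    unfold lj
    exact Finset.mem_filter.2 ⟨h1, h3, h4, Nat.lt_ceil.2 h5⟩
  set R : V → Finset (V × V) := fun z =>
    ((W ×ˢ W).filter (fun p => cd G p.1 p.2 < t')).filter (fun p => G.Adj z p.1 ∧ G.Adj z p.2)
    with hR
  have hz : ∀ z ∈ cn G κ i b, ((∑ w ∈ cn G κ i z, (qj G κ j t' w z).card : ℕ) : ℝ) ≤
      2 * lam * d ^ 2 + ((R z).card : ℝ) := by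
    intro z hz
    rw [mem_cn] at hz
    have h1 : ∑ w ∈ cn G κ i z, (qj G κ j t' w z).card =
        ((cn G κ i z ×ˢ cn G κ j z).filter (fun p => cd G p.1 p.2 < t')).card := by
      rw [Finset.card_filter, Finset.sum_product]
      refine Finset.sum_congr rfl fun w _ => ?_
      unfold qj
      rw [Finset.card_filter]
    have h2 : (cn G κ i z ×ˢ cn G κ j z).filter (fun p => cd G p.1 p.2 < t') ⊆
        ((cn G κ i z).filter (fun w => w ∉ W) ×ˢ cn G κ j z) ∪
        ((cn G κ i z ×ˢ (cn G κ j z).filter (fun w => w ∉ W)) ∪ R z) := by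
      intro p hp
      obtain ⟨h3, h4⟩ := Finset.mem_filter.1 hp
      obtain ⟨h5, h6⟩ := Finset.mem_product.1 h3
      rw [Finset.mem_union, Finset.mem_union, Finset.mem_product, Finset.mem_product,
        Finset.mem_filter, Finset.mem_filter]
      by_cases h7 : p.1 ∈ W
      · by_cases h8 : p.2 ∈ W
        · right; right
          rw [hR]
          refine Finset.mem_filter.2 ⟨Finset.mem_filter.2 ⟨Finset.mem_product.2 ⟨h7, h8⟩, h4⟩,
            ((mem_cn G κ i z p.1).1 h5).1, ((mem_cn G κ j z p.2).1 h6).1⟩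
        · right; left
          exact ⟨h5, h6, h8⟩
      · left
        exact ⟨⟨h5, h7⟩, h6⟩
    have h3 : ((cn G κ i z ×ˢ cn G κ j z).filter (fun p => cd G p.1 p.2 < t')).card ≤
        ((cn G κ i z).filter (fun w => w ∉ W)).card * (cn G κ j z).card +
        ((cn G κ i z).card * ((cn G κ j z).filter (fun w => w ∉ W)).card + (R z).card) := by
      refine (Finset.card_le_card h2).trans ((Finset.card_union_le _ _).trans ?_)
      rw [Finset.card_product]
      refine Nat.add_le_add_left ((Finset.card_union_le _ _).trans ?_) _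
      rw [Finset.card_product]
    have h4 : (((cn G κ i z).filter (fun w => w ∉ W)).card : ℝ) ≤ lam * d := by
      refine le_trans ?_ (hii b z hz.1 hz.2).le
      exact_mod_cast Finset.card_le_card (hout z hz.1 i)
    have h5 : (((cn G κ j z).filter (fun w => w ∉ W)).card : ℝ) ≤ lam * d := by
      refine le_trans ?_ (hij b z hz.1 hz.2).le
      exact_mod_cast Finset.card_le_card (hout z hz.1 j)
    have h6 : ∀ l, ((cn G κ l z).card : ℝ) ≤ d := by
      intro l
      refine le_trans ?_ (hreg z)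
      exact_mod_cast Finset.card_le_card (cn_sub G κ l z)
    have h3' : (((cn G κ i z ×ˢ cn G κ j z).filter (fun p => cd G p.1 p.2 < t')).card : ℝ) ≤
        (((cn G κ i z).filter (fun w => w ∉ W)).card : ℝ) * ((cn G κ j z).card : ℝ) +
        (((cn G κ i z).card : ℝ) * (((cn G κ j z).filter (fun w => w ∉ W)).card : ℝ) +
          ((R z).card : ℝ)) := by exact_mod_cast h3
    rw [h1]
    have h7 : (((cn G κ i z).filter (fun w => w ∉ W)).card : ℝ) * ((cn G κ j z).card : ℝ) ≤
        lam * d * d := mul_le_mul h4 (h6 j) (Nat.cast_nonneg _) (by positivity)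
    have h8 : ((cn G κ i z).card : ℝ) * (((cn G κ j z).filter (fun w => w ∉ W)).card : ℝ) ≤
        d * (lam * d) := mul_le_mul (h6 i) h5 (Nat.cast_nonneg _) hd0.le
    nlinarith
  have hRsum : ((∑ z ∈ cn G κ i b, (R z).card : ℕ) : ℝ) ≤ (3 * d / δ) ^ 2 * t' := by
    have h1 : ∑ z ∈ cn G κ i b, (R z).card ≤ ∑ z : V, (R z).card :=
      Finset.sum_le_sum_of_subset (Finset.subset_univ _)
    have h2 := Finset.sum_card_bipartiteAbove_eq_sum_card_bipartiteBelow
      (s := (univ : Finset V)) (t := (W ×ˢ W).filter (fun p => cd G p.1 p.2 < t'))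
      (fun z p => G.Adj z p.1 ∧ G.Adj z p.2)
    unfold Finset.bipartiteAbove Finset.bipartiteBelow at h2
    have h3 : ∀ p ∈ (W ×ˢ W).filter (fun p => cd G p.1 p.2 < t'),
        ((((univ : Finset V).filter (fun z => G.Adj z p.1 ∧ G.Adj z p.2)).card : ℕ) : ℝ) ≤
          t' := by
      intro p hp
      have h4 := (Finset.mem_filter.1 hp).2
      have h4' : (cd G p.1 p.2 : ℝ) ≤ t' := by exact_mod_cast h4.le
      refine le_trans ?_ h4'
      have h5 : ((univ : Finset V).filter (fun z => G.Adj z p.1 ∧ G.Adj z p.2)).card ≤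
          cd G p.1 p.2 := by
        unfold cd
        apply Finset.card_le_card
        intro z hz'
        obtain ⟨_, h6, h7⟩ := Finset.mem_filter.1 hz'
        exact Finset.mem_filter.2 ⟨Finset.mem_univ _, h6.symm, h7.symm⟩
      exact_mod_cast h5
    calc ((∑ z ∈ cn G κ i b, (R z).card : ℕ) : ℝ) ≤ ((∑ z : V, (R z).card : ℕ) : ℝ) := by
          exact_mod_cast h1
      _ = ((∑ p ∈ (W ×ˢ W).filter (fun p => cd G p.1 p.2 < t'),
            ((univ : Finset V).filter (fun z => G.Adj z p.1 ∧ G.Adj z p.2)).card : ℕ) : ℝ) := by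
          rw [← h2]
      _ = ∑ p ∈ (W ×ˢ W).filter (fun p => cd G p.1 p.2 < t'),
            (((univ : Finset V).filter (fun z => G.Adj z p.1 ∧ G.Adj z p.2)).card : ℝ) := by
          push_cast
          rfl
      _ ≤ ∑ p ∈ (W ×ˢ W).filter (fun p => cd G p.1 p.2 < t'), (t' : ℝ) :=
          Finset.sum_le_sum h3
      _ = (((W ×ˢ W).filter (fun p => cd G p.1 p.2 < t')).card : ℝ) * t' := by
          rw [Finset.sum_const, nsmul_eq_mul]
      _ ≤ (3 * d / δ) ^ 2 * t' := by
          apply mul_le_mul_of_nonneg_right _ (by positivity)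
          calc (((W ×ˢ W).filter (fun p => cd G p.1 p.2 < t')).card : ℝ) ≤
                ((W ×ˢ W).card : ℝ) := by exact_mod_cast Finset.card_filter_le _ _
            _ = (W.card : ℝ) ^ 2 := by
                rw [Finset.card_product]
                push_cast
                ring
            _ ≤ (3 * d / δ) ^ 2 := pow_le_pow_left₀ (Nat.cast_nonneg _) hWc 2
  have hmain : (D : ℝ) * (D * m) ≤
      K ^ 2 * (D * (2 * lam * d ^ 2) + (3 * d / δ) ^ 2 * t') := by
    have h1 : ((D * (D * m) : ℕ) : ℝ) ≤ K ^ 2 * ∑ z ∈ cn G κ i b,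
        ((∑ w ∈ cn G κ i z, (qj G κ j t' w z).card : ℕ) : ℝ) := by
      have : ((D * (D * m) : ℕ) : ℝ) ≤ ((K ^ 2 * ∑ z ∈ cn G κ i b, ∑ w ∈ cn G κ i z,
          (qj G κ j t' w z).card : ℕ) : ℝ) := by exact_mod_cast hT
      refine this.trans (le_of_eq ?_)
      push_cast
      rfl
    have h2 : ∑ z ∈ cn G κ i b, ((∑ w ∈ cn G κ i z, (qj G κ j t' w z).card : ℕ) : ℝ) ≤
        ∑ z ∈ cn G κ i b, (2 * lam * d ^ 2 + ((R z).card : ℝ)) := Finset.sum_le_sum hz
    rw [Finset.sum_add_distrib, Finset.sum_const, nsmul_eq_mul] at h2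
    have h3 : ((∑ z ∈ cn G κ i b, (R z).card : ℕ) : ℝ) = ∑ z ∈ cn G κ i b, ((R z).card : ℝ) := by
      push_cast
      rfl
    rw [← h3] at h2
    have h4 : ((D * (D * m) : ℕ) : ℝ) = (D : ℝ) * (D * m) := by push_cast; ring
    rw [← h4]
    refine h1.trans (mul_le_mul_of_nonneg_left ?_ (by positivity))
    linarith
  have hbig : d ≤ K * (r * D) := by
    have h1 := hhom.big b a hab
    rw [hi] at h1
    have h2 : ((nb G b).card : ℝ) ≤ r * D := by exact_mod_cast h1
    exact (hge b hnb).trans (mul_le_mul_of_nonneg_left h2 (Nat.cast_nonneg _))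
  have hDR : (0 : ℝ) < D := by exact_mod_cast hDpos
  have hfin : (3 * d / δ) ^ 2 * t' ≤ D * (9 * K ^ 2 * r * t * d / δ ^ 2) := by
    have h1 : (3 * d / δ) ^ 2 * (t' : ℝ) = (9 * K * t * d / δ ^ 2) * d := by
      rw [ht']
      push_cast
      field_simp
      ring
    have h2 : (D : ℝ) * (9 * K ^ 2 * r * t * d / δ ^ 2) =
        (9 * K * t * d / δ ^ 2) * (K * (r * D)) := by
      ring
    rw [h1, h2]
    exact mul_le_mul_of_nonneg_left hbig (by positivity)
  have hfin2 : (D : ℝ) * (D * m) ≤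
      D * (K ^ 2 * (2 * lam * d ^ 2 + 9 * K ^ 2 * r * t * d / δ ^ 2)) := by
    calc (D : ℝ) * (D * m) ≤ K ^ 2 * (D * (2 * lam * d ^ 2) + (3 * d / δ) ^ 2 * t') := hmain
      _ ≤ K ^ 2 * (D * (2 * lam * d ^ 2) + D * (9 * K ^ 2 * r * t * d / δ ^ 2)) := by
          apply mul_le_mul_of_nonneg_left _ (by positivity)
          linarith
      _ = D * (K ^ 2 * (2 * lam * d ^ 2 + 9 * K ^ 2 * r * t * d / δ ^ 2)) := by ring
  exact le_of_mul_le_mul_left hfin2 hDR

end Pool.Agent.X228.GS
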