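import Pool.Agent.X228.GS.Main

set_option autoImplicit false

/-!
# The Gyárfás–Sumner conjecture for graphs with few orbits
-/

namespace Pool.Agent.X228.GS

open Finset Pool.Agent.Y394.AT

section inv
variable {V ι : Type} [Fintype V] {H : SimpleGraph V} {κ : V → V → ι}

theorem nb_map (φ : H ≃g H) (b : V) : nb H (φ b) = (nb H b).map φ.toEquiv.toEmbedding := by
  ext w
  rw [mem_nb, Finset.mem_map]
  constructor
  · intro h
    refine ⟨φ.symm w, ?_, φ.apply_symm_apply w⟩
    rw [mem_nb, ← φ.map_adj_iff, φ.apply_symm_apply]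
    exact h
  · rintro ⟨x, hx, rfl⟩
    rw [mem_nb] at hx
    exact φ.map_adj_iff.2 hx

theorem cd_map (φ : H ≃g H) (a b : V) : cd H (φ a) (φ b) = cd H a b := by
  classical
  unfold cd
  rw [← Finset.card_map (s := (univ : Finset V).filter (fun w => H.Adj a w ∧ H.Adj b w))
    φ.toEquiv.toEmbedding]
  congr 1
  ext w
  rw [Finset.mem_map, Finset.mem_filter]
  constructor
  · rintro ⟨_, h1, h2⟩
    refine ⟨φ.symm w, Finset.mem_filter.2 ⟨Finset.mem_univ _, ?_, ?_⟩, φ.apply_symm_apply w⟩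
    · rw [← φ.map_adj_iff, φ.apply_symm_apply]
      exact h1
    · rw [← φ.map_adj_iff, φ.apply_symm_apply]
      exact h2
  · rintro ⟨x, hx, rfl⟩
    obtain ⟨_, h1, h2⟩ := Finset.mem_filter.1 hx
    exact ⟨Finset.mem_univ _, φ.map_adj_iff.2 h1, φ.map_adj_iff.2 h2⟩

theorem cn_map (φ : H ≃g H) (hφ : ∀ x y, κ (φ x) (φ y) = κ x y) (j : ι) (b : V) :
    cn H κ j (φ b) = (cn H κ j b).map φ.toEquiv.toEmbedding := by
  ext w
  rw [mem_cn, Finset.mem_map]
  constructor
  · rintro ⟨h1, h2⟩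
    refine ⟨φ.symm w, ?_, φ.apply_symm_apply w⟩
    rw [mem_cn, ← φ.map_adj_iff, φ.apply_symm_apply, ← hφ b (φ.symm w), φ.apply_symm_apply]
    exact ⟨h1, h2⟩
  · rintro ⟨x, hx, rfl⟩
    rw [mem_cn] at hx
    exact ⟨φ.map_adj_iff.2 hx.1, by rw [← hx.2]; exact hφ b x⟩

theorem qj_map (φ : H ≃g H) (hφ : ∀ x y, κ (φ x) (φ y) = κ x y) (j : ι) (t : ℕ) (a b : V) :
    (qj H κ j t (φ a) (φ b)).card = (qj H κ j t a b).card := by
  classical
  unfold qj
  rw [cn_map φ hφ, Finset.filter_map, Finset.card_map]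
  congr 1
  apply Finset.filter_congr
  intro x _
  show cd H (φ a) (φ x) < t ↔ _
  rw [cd_map]

theorem lj_map (φ : H ≃g H) (hφ : ∀ x y, κ (φ x) (φ y) = κ x y) (j : ι) (t : ℕ) (a b : V) :
    (lj H κ j t (φ a) (φ b)).card = (lj H κ j t a b).card := by
  classical
  unfold lj
  rw [cn_map φ hφ, Finset.filter_map, Finset.card_map]
  congr 1
  apply Finset.filter_congr
  intro x _
  show (φ x ≠ φ a ∧ ¬ H.Adj (φ a) (φ x) ∧ cd H (φ a) (φ x) < t) ↔ _
  rw [cd_map, φ.map_adj_iff, φ.injective.ne_iff]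

theorem hom_of_group (r : ℕ)
    (h1 : ∀ u v, (nb H u).Nonempty → (nb H v).Nonempty →
      ∃ φ : H ≃g H, φ u = v ∧ ∀ x y, κ (φ x) (φ y) = κ x y)
    (h2 : ∀ a b c d, H.Adj a b → H.Adj c d → κ a b = κ c d →
      ∃ φ : H ≃g H, φ a = c ∧ φ b = d ∧ ∀ x y, κ (φ x) (φ y) = κ x y)
    (h3 : ∀ a b, H.Adj a b → (nb H a).card ≤ r * (cn H κ (κ a b) a).card) : Hom H κ r 1 where
  deg := by
    intro u v hu hv j
    obtain ⟨φ, rfl, hφ⟩ := h1 u v hu hv
    rw [cn_map φ hφ, Finset.card_map, one_mul]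
  rev := by
    intro a b c d hab hcd h
    obtain ⟨φ, rfl, rfl, hφ⟩ := h2 a b c d hab hcd h
    exact (hφ b a).symm
  lc := by
    intro a b c d hab hcd h j t
    obtain ⟨φ, rfl, rfl, hφ⟩ := h2 a b c d hab hcd h
    rw [one_mul, one_mul, lj_map φ hφ j t a b]
  qc := by
    intro a b c d hab hcd h j t
    obtain ⟨φ, rfl, rfl, hφ⟩ := h2 a b c d hab hcd h
    rw [one_mul, one_mul, qj_map φ hφ j t a b]
  cod := by
    intro a b c d hab hcd h
    obtain ⟨φ, rfl, rfl, hφ⟩ := h2 a b c d hab hcd h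
    rw [one_mul, cd_map φ a b, nb_map φ a, Finset.card_map]
  big := h3

end inv

/-- the edges within the orbit of `v₀` -/
def orb {V : Type} (G : SimpleGraph V) (v₀ : V) : SimpleGraph V where
  Adj u v := G.Adj u v ∧ (∃ φ : G ≃g G, φ v₀ = u) ∧ ∃ φ : G ≃g G, φ v₀ = v
  symm := ⟨fun _ _ h => ⟨h.1.symm, h.2.2, h.2.1⟩⟩
  loopless := ⟨fun _ h => G.loopless.irrefl _ h.1⟩

theorem orb_le {V : Type} (G : SimpleGraph V) (v₀ : V) : orb G v₀ ≤ G := fun _ _ h => h.1

theorem orb_move {V : Type} {G : SimpleGraph V} {v₀ x : V} (φ : G ≃g G) :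
    (∃ ψ : G ≃g G, ψ v₀ = φ x) ↔ ∃ ψ : G ≃g G, ψ v₀ = x := by
  constructor
  · rintro ⟨ψ, hψ⟩
    exact ⟨ψ.trans φ.symm, by
      show φ.symm (ψ v₀) = x
      rw [hψ, φ.symm_apply_apply]⟩
  · rintro ⟨ψ, rfl⟩
    exact ⟨ψ.trans φ, rfl⟩

/-- an automorphism acts on the orbit graph -/
def orbAut {V : Type} {G : SimpleGraph V} (v₀ : V) (φ : G ≃g G) : orb G v₀ ≃g orb G v₀ where
  toEquiv := φ.toEquiv
  map_rel_iff' := by
    intro a b
    show (G.Adj (φ a) (φ b) ∧ (∃ ψ : G ≃g G, ψ v₀ = φ a) ∧ ∃ ψ : G ≃g G, ψ v₀ = φ b) ↔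
      (G.Adj a b ∧ (∃ ψ : G ≃g G, ψ v₀ = a) ∧ ∃ ψ : G ≃g G, ψ v₀ = b)
    rw [φ.map_adj_iff, orb_move, orb_move]

/-- the orbit of an arc -/
def arcOrb {V : Type} (G : SimpleGraph V) (u v : V) : Set (V × V) :=
  {p | ∃ φ : G ≃g G, φ u = p.1 ∧ φ v = p.2}

theorem arcOrb_move {V : Type} {G : SimpleGraph V} (φ : G ≃g G) (u v : V) :
    arcOrb G (φ u) (φ v) = arcOrb G u v := by
  ext p
  constructor
  · rintro ⟨ψ, h1, h2⟩
    exact ⟨φ.trans ψ, h1, h2⟩
  · rintro ⟨ψ, h1, h2⟩
    refine ⟨φ.symm.trans ψ, ?_, ?_⟩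
    · show ψ (φ.symm (φ u)) = _
      rw [φ.symm_apply_apply, h1]
    · show ψ (φ.symm (φ v)) = _
      rw [φ.symm_apply_apply, h2]

theorem arcOrb_eq {V : Type} {G : SimpleGraph V} {a b c d : V} (h : arcOrb G a b = arcOrb G c d) :
    ∃ φ : G ≃g G, φ a = c ∧ φ b = d := by
  have : (c, d) ∈ arcOrb G c d := ⟨SimpleGraph.Iso.refl, rfl, rfl⟩
  rw [← h] at this
  exact this

/-- few orbits -/
structure FewOrbits {V : Type} (G : SimpleGraph V) (r s : ℕ) : Prop where
  vert : ∃ c : V → Fin s, ∀ u v, c u = c v → ∃ φ : G ≃g G, φ u = v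
  arcs : ∀ u v, G.Adj u v → (∃ φ : G ≃g G, φ u = v) →
    {w | G.Adj u w ∧ ∃ φ : G ≃g G, φ u = w}.ncard ≤
      r * {w | ∃ φ : G ≃g G, φ u = u ∧ φ v = w}.ncard

theorem hom_orb {V : Type} [Fintype V] {G : SimpleGraph V} {r s : ℕ} (h : FewOrbits G r s)
    (v₀ : V) : Hom (orb G v₀) (arcOrb G) r 1 := by
  classical
  apply hom_of_group
  · intro u v hu hv
    obtain ⟨u', hu'⟩ := hu
    obtain ⟨v', hv'⟩ := hv
    rw [mem_nb] at hu' hv'
    obtain ⟨_, ⟨φ, rfl⟩, _⟩ := hu'
    obtain ⟨_, ⟨ψ, rfl⟩, _⟩ := hv'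
    refine ⟨orbAut v₀ (φ.symm.trans ψ), ?_, ?_⟩
    · show ψ (φ.symm (φ v₀)) = ψ v₀
      rw [φ.symm_apply_apply]
    · intro x y
      exact arcOrb_move (φ.symm.trans ψ) x y
  · intro a b c d hab hcd heq
    obtain ⟨φ, h1, h2⟩ := arcOrb_eq heq
    exact ⟨orbAut v₀ φ, h1, h2, fun x y => arcOrb_move φ x y⟩
  · intro a b hab
    obtain ⟨hab1, ⟨φ, hφ⟩, ⟨ψ, hψ⟩⟩ := hab
    have hsame : ∃ χ : G ≃g G, χ a = b := ⟨φ.symm.trans ψ, by
      show ψ (φ.symm a) = b
      rw [← hφ, φ.symm_apply_apply, hψ]⟩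
    have h1 := h.arcs a b hab1 hsame
    have h2 : ((nb (orb G v₀) a : Finset V) : Set V) ⊆ {w | G.Adj a w ∧ ∃ φ : G ≃g G, φ a = w} := by
      intro w hw
      rw [Finset.mem_coe, mem_nb] at hw
      obtain ⟨h3, _, ⟨χ, hχ⟩⟩ := hw
      refine ⟨h3, φ.symm.trans χ, ?_⟩
      show χ (φ.symm a) = w
      rw [← hφ, φ.symm_apply_apply, hχ]
    have h3 : {w | ∃ φ : G ≃g G, φ a = a ∧ φ b = w} ⊆
        ((cn (orb G v₀) (arcOrb G) (arcOrb G a b) a : Finset V) : Set V) := by
      rintro w ⟨χ, hχ1, hχ2⟩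
      rw [Finset.mem_coe, mem_cn]
      refine ⟨⟨?_, ⟨φ, hφ⟩, ?_⟩, ?_⟩
      · have := χ.map_adj_iff.2 hab1
        rwa [hχ1, hχ2] at this
      · rw [← hχ2, orb_move]
        exact ⟨ψ, hψ⟩
      · have := arcOrb_move χ a b
        rwa [hχ1, hχ2] at this
    calc (nb (orb G v₀) a).card = ((nb (orb G v₀) a : Finset V) : Set V).ncard :=
          (Set.ncard_coe_finset _).symm
      _ ≤ {w | G.Adj a w ∧ ∃ φ : G ≃g G, φ a = w}.ncard := Set.ncard_le_ncard h2 (Set.toFinite _)
      _ ≤ r * {w | ∃ φ : G ≃g G, φ a = a ∧ φ b = w}.ncard := h1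
      _ ≤ r * ((cn (orb G v₀) (arcOrb G) (arcOrb G a b) a : Finset V) : Set V).ncard :=
          Nat.mul_le_mul_left _ (Set.ncard_le_ncard h3 (Set.toFinite _))
      _ = r * (cn (orb G v₀) (arcOrb G) (arcOrb G a b) a).card := by rw [Set.ncard_coe_finset]

theorem color_orbits (m : ℕ) (F : SimpleGraph (Fin m)) (hF : F.IsAcyclic) (k : ℕ) (hk : 1 ≤ k)
    (r s : ℕ) (hr : 1 ≤ r) :
    ∃ C : ℕ, ∀ (V : Type) [Fintype V] (G : SimpleGraph V), FewOrbits G r s →
      G.CliqueFree (k + 1) → IsEmpty (F ↪g G) → G.Colorable C := by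
  classical
  obtain ⟨T, hT, ⟨ι⟩⟩ := Pool.Agent.H367R3.forest_in_tree F hF
  obtain ⟨C, hC⟩ := exists_color (m + 1) T hT.isAcyclic k hk r 1 hr le_rfl
  refine ⟨s * C, ?_⟩
  intro V _ G hfew hfree hemp
  have hm : m ≠ 0 := by
    rintro rfl
    exact hemp.false ⟨⟨Fin.elim0, fun x => x.elim0⟩, fun {x} => x.elim0⟩
  have hcol : ∀ v₀ : V, (orb G v₀).Colorable C := by
    intro v₀
    refine hC V _ (orb G v₀) (arcOrb G) (hom_orb hfew v₀) (hfree.anti (orb_le G v₀)) ⟨fun e => ?_⟩
    have : Nontrivial (Fin (m + 1)) := Fin.nontrivial_iff_two_le.2 (by omega)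
    have hin : ∀ x : Fin (m + 1), ∃ φ : G ≃g G, φ v₀ = e x := by
      intro x
      obtain ⟨y, hy⟩ := hT.connected.preconnected.exists_adj_of_nontrivial x
      exact (e.map_adj_iff.2 hy).2.1
    have hadj : ∀ a b, G.Adj (e a) (e b) ↔ T.Adj a b := by
      intro a b
      constructor
      · intro h
        exact e.map_adj_iff.1 ⟨h, hin a, hin b⟩
      · intro h
        exact (e.map_adj_iff.2 h).1
    let e' : T ↪g G :=
      { toFun := e, inj' := e.injective, map_rel_iff' := fun {a b} => hadj a b }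
    exact hemp.false (ι.trans e')
  obtain ⟨c, hc⟩ := hfew.vert
  have hcol' : ∀ v₀ : V, Nonempty ((orb G v₀).Coloring (Fin C)) := fun v₀ => hcol v₀
  let col : ∀ v₀ : V, (orb G v₀).Coloring (Fin C) := fun v₀ => (hcol' v₀).some
  -- representatives
  let ρ : V → V := fun v => if h : ∃ u, c u = c v then h.choose else v
  have hρ : ∀ v, c (ρ v) = c v := by
    intro v
    have h : ∃ u, c u = c v := ⟨v, rfl⟩
    show c (if h : ∃ u, c u = c v then h.choose else v) = c v
    rw [dif_pos h]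
    exact h.choose_spec
  have hρ2 : ∀ u v, c u = c v → ρ u = ρ v := by
    intro u v huv
    have h : ∃ x, c x = c v := ⟨v, rfl⟩
    have h' : ∃ x, c x = c u := ⟨u, rfl⟩
    show (if h : ∃ x, c x = c u then h.choose else u) = if h : ∃ x, c x = c v then h.choose else v
    rw [dif_pos h, dif_pos h']
    congr 1
    funext x
    rw [huv]
  have hfin : G.Coloring (Fin s × Fin C) := SimpleGraph.Coloring.mk (fun v => (c v, col (ρ v) v)) (by
    intro u v huv heq
    have h1 : c u = c v := congrArg Prod.fst heq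
    have h2 : col (ρ u) u = col (ρ v) v := congrArg Prod.snd heq
    rw [hρ2 u v h1] at h2
    refine (col (ρ v)).valid ?_ h2
    exact ⟨huv, hc _ _ ((hρ v).trans h1.symm), hc _ _ (hρ v)⟩)
  have := hfin.colorable
  simpa using this


/-- edge-transitive graphs -/
def EdgeTrans {V : Type} (G : SimpleGraph V) : Prop :=
  ∀ a b c d, G.Adj a b → G.Adj c d → ∃ φ : G ≃g G, (φ a = c ∧ φ b = d) ∨ (φ a = d ∧ φ b = c)

theorem swap_iso {V : Type} {G : SimpleGraph V} (u v : V) (hu : ∀ w, ¬ G.Adj u w)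
    (hv : ∀ w, ¬ G.Adj v w) : ∃ φ : G ≃g G, φ u = v := by
  classical
  refine ⟨{ toEquiv := Equiv.swap u v, map_rel_iff' := ?_ }, Equiv.swap_apply_left u v⟩
  intro a b
  have key : ∀ x y, G.Adj x y → Equiv.swap u v x = x := by
    intro x y hxy
    apply Equiv.swap_apply_of_ne_of_ne
    · rintro rfl
      exact hu y hxy
    · rintro rfl
      exact hv y hxy
  constructor
  · intro h
    have h1 : Equiv.swap u v a = a := (Equiv.swap u v).injective (key _ _ h)
    have h2 : Equiv.swap u v b = b := (Equiv.swap u v).injective (key _ _ h.symm)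
    have h3 : G.Adj (Equiv.swap u v a) (Equiv.swap u v b) := h
    rw [h1, h2] at h3
    exact h3
  · intro h
    have h1 := key _ _ h
    have h2 := key _ _ h.symm
    show G.Adj (Equiv.swap u v a) (Equiv.swap u v b)
    rw [h1, h2]
    exact h

theorem few_of_edgeTrans {V : Type} [Fintype V] {G : SimpleGraph V} (h : EdgeTrans G) :
    FewOrbits G 2 3 where
  vert := by
    classical
    by_cases hE : ∃ a b, G.Adj a b
    · obtain ⟨a, b, hab⟩ := hE
      refine ⟨fun v => if ∀ w, ¬ G.Adj v w then 0 else if ∃ φ : G ≃g G, φ a = v then 1 else 2, ?_⟩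
      have horb : ∀ v, ¬ (∀ w, ¬ G.Adj v w) → ¬ (∃ φ : G ≃g G, φ a = v) →
          ∃ φ : G ≃g G, φ b = v := by
        intro v h1 h2
        push Not at h1
        obtain ⟨w, hvw⟩ := h1
        obtain ⟨φ, h3 | h3⟩ := h a b v w hab hvw
        · exact absurd ⟨φ, h3.1⟩ h2
        · exact ⟨φ, h3.2⟩
      intro u v huv
      by_cases hu : ∀ w, ¬ G.Adj u w
      · by_cases hv : ∀ w, ¬ G.Adj v w
        · exact swap_iso u v hu hv
        · exfalso
          simp only [hu, hv, if_false] at huv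
          by_cases hv' : ∃ φ : G ≃g G, φ a = v
          · simp [hv'] at huv
          · simp [hv'] at huv
      · by_cases hv : ∀ w, ¬ G.Adj v w
        · exfalso
          simp only [hu, hv, if_false] at huv
          by_cases hu' : ∃ φ : G ≃g G, φ a = u
          · simp [hu'] at huv
          · simp [hu'] at huv
        · by_cases hu' : ∃ φ : G ≃g G, φ a = u
          · by_cases hv' : ∃ φ : G ≃g G, φ a = v
            · obtain ⟨φ, rfl⟩ := hu'
              obtain ⟨ψ, rfl⟩ := hv'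
              exact ⟨φ.symm.trans ψ, by
                show ψ (φ.symm (φ a)) = ψ a
                rw [φ.symm_apply_apply]⟩
            · exfalso
              simp only [hu, hv, if_false, if_pos hu', if_neg hv'] at huv
              simp at huv
          · by_cases hv' : ∃ φ : G ≃g G, φ a = v
            · exfalso
              simp only [hu, hv, if_false, if_neg hu', if_pos hv'] at huv
              simp at huv
            · obtain ⟨φ, rfl⟩ := horb u hu hu'
              obtain ⟨ψ, rfl⟩ := horb v hv hv'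
              exact ⟨φ.symm.trans ψ, by
                show ψ (φ.symm (φ b)) = ψ b
                rw [φ.symm_apply_apply]⟩
    · push Not at hE
      exact ⟨fun _ => 0, fun u v _ => swap_iso u v (hE u) (hE v)⟩
  arcs := by
    classical
    rintro u v huv ⟨χ, hχ⟩
    -- the class of the arc `u v`
    set R : V → V → Prop := fun x y => ∃ φ : G ≃g G, φ u = x ∧ φ v = y with hR
    have hRmove : ∀ (ψ : G ≃g G) x y, R (ψ x) (ψ y) ↔ R x y := by
      intro ψ x y
      constructor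
      · rintro ⟨φ, h1, h2⟩
        refine ⟨φ.trans ψ.symm, ?_, ?_⟩
        · show ψ.symm (φ u) = x
          rw [h1, ψ.symm_apply_apply]
        · show ψ.symm (φ v) = y
          rw [h2, ψ.symm_apply_apply]
      · rintro ⟨φ, h1, h2⟩
        refine ⟨φ.trans ψ, ?_, ?_⟩
        · show ψ (φ u) = _
          rw [h1]
        · show ψ (φ v) = _
          rw [h2]
    set O : Finset V := univ.filter (fun x => ∃ φ : G ≃g G, φ u = x) with hO
    have hO0 : 0 < O.card := Finset.card_pos.2 ⟨u, Finset.mem_filter.2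
      ⟨Finset.mem_univ _, SimpleGraph.Iso.refl, rfl⟩⟩
    have hout : ∀ x ∈ O, (univ.filter (fun y => R x y)).card =
        (univ.filter (fun y => R u y)).card := by
      intro x hx
      obtain ⟨_, φ, rfl⟩ := Finset.mem_filter.1 hx
      rw [← Finset.card_map (s := univ.filter (fun y => R u y)) φ.toEquiv.toEmbedding]
      congr 1
      ext y
      rw [Finset.mem_map, Finset.mem_filter]
      constructor
      · rintro ⟨_, h1⟩
        refine ⟨φ.symm y, Finset.mem_filter.2 ⟨Finset.mem_univ _, ?_⟩, φ.apply_symm_apply y⟩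
        rw [← hRmove φ, φ.apply_symm_apply]
        exact h1
      · rintro ⟨z, hz, rfl⟩
        exact ⟨Finset.mem_univ _, (hRmove φ u z).2 (Finset.mem_filter.1 hz).2⟩
    have hin : ∀ x ∈ O, (univ.filter (fun y => R y x)).card =
        (univ.filter (fun y => R y u)).card := by
      intro x hx
      obtain ⟨_, φ, rfl⟩ := Finset.mem_filter.1 hx
      rw [← Finset.card_map (s := univ.filter (fun y => R y u)) φ.toEquiv.toEmbedding]
      congr 1
      ext y
      rw [Finset.mem_map, Finset.mem_filter]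
      constructor
      · rintro ⟨_, h1⟩
        refine ⟨φ.symm y, Finset.mem_filter.2 ⟨Finset.mem_univ _, ?_⟩, φ.apply_symm_apply y⟩
        rw [← hRmove φ, φ.apply_symm_apply]
        exact h1
      · rintro ⟨z, hz, rfl⟩
        exact ⟨Finset.mem_univ _, (hRmove φ z u).2 (Finset.mem_filter.1 hz).2⟩
    have hcount := Finset.sum_card_bipartiteAbove_eq_sum_card_bipartiteBelow
      (s := O) (t := O) R
    unfold Finset.bipartiteAbove Finset.bipartiteBelow at hcount
    have hOall : ∀ x y, R x y → x ∈ O ∧ y ∈ O := by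
      rintro x y ⟨φ, rfl, rfl⟩
      refine ⟨Finset.mem_filter.2 ⟨Finset.mem_univ _, φ, rfl⟩,
        Finset.mem_filter.2 ⟨Finset.mem_univ _, χ.trans φ, ?_⟩⟩
      show φ (χ u) = φ v
      rw [hχ]
    have e1 : ∀ x ∈ O, (O.filter (fun y => R x y)).card = (univ.filter (fun y => R u y)).card := by
      intro x hx
      rw [← hout x hx]
      congr 1
      ext y
      simp only [Finset.mem_filter, Finset.mem_univ, true_and]
      exact ⟨fun h => h.2, fun h => ⟨(hOall x y h).2, h⟩⟩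
    have e2 : ∀ x ∈ O, (O.filter (fun y => R y x)).card = (univ.filter (fun y => R y u)).card := by
      intro x hx
      rw [← hin x hx]
      congr 1
      ext y
      simp only [Finset.mem_filter, Finset.mem_univ, true_and]
      exact ⟨fun h => h.2, fun h => ⟨(hOall y x h).1, h⟩⟩
    rw [Finset.sum_congr rfl e1, Finset.sum_congr rfl e2, Finset.sum_const, Finset.sum_const,
      smul_eq_mul, smul_eq_mul] at hcount
    have heq : (univ.filter (fun y => R u y)).card = (univ.filter (fun y => R y u)).card :=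
      Nat.eq_of_mul_eq_mul_left hO0 hcount
    have hsub : {w | G.Adj u w ∧ ∃ φ : G ≃g G, φ u = w} ⊆
        ((univ.filter (fun y => R u y) ∪ univ.filter (fun y => R y u) : Finset V) : Set V) := by
      rintro w ⟨huw, _⟩
      rw [Finset.mem_coe, Finset.mem_union, Finset.mem_filter, Finset.mem_filter]
      obtain ⟨φ, h1 | h1⟩ := h u v u w huv huw
      · exact Or.inl ⟨Finset.mem_univ _, φ, h1.1, h1.2⟩
      · exact Or.inr ⟨Finset.mem_univ _, φ, h1.1, h1.2⟩
    have hS : {w | ∃ φ : G ≃g G, φ u = u ∧ φ v = w} =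
        ((univ.filter (fun y => R u y) : Finset V) : Set V) := by
      ext w
      simp [hR]
    rw [hS, Set.ncard_coe_finset]
    calc {w | G.Adj u w ∧ ∃ φ : G ≃g G, φ u = w}.ncard ≤
          ((univ.filter (fun y => R u y) ∪ univ.filter (fun y => R y u) : Finset V) :
            Set V).ncard := Set.ncard_le_ncard hsub (Set.toFinite _)
      _ = (univ.filter (fun y => R u y) ∪ univ.filter (fun y => R y u)).card :=
          Set.ncard_coe_finset _
      _ ≤ (univ.filter (fun y => R u y)).card + (univ.filter (fun y => R y u)).card :=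
          Finset.card_union_le _ _
      _ = 2 * (univ.filter (fun y => R u y)).card := by
          rw [← heq]
          ring

end Pool.Agent.X228.GS
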