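import Pool.Agent.X228.GS.Col

set_option autoImplicit false

/-!
# The Gyárfás–Sumner conjecture for graphs with classes of arcs: the colouring
-/

namespace Pool.Agent.X228.GS

open Finset Pool.Agent.Y394.AT

open Classical in
theorem swap_sum {V ι : Type} [Fintype V] (G : SimpleGraph V) (κ : V → V → ι) (i j : ι) (t : ℕ)
    (b : V) : ∑ w ∈ cn G κ i b, (qj G κ j t w b).card = ∑ w ∈ cn G κ j b, (qj G κ i t w b).card := by
  have h := Finset.sum_card_bipartiteAbove_eq_sum_card_bipartiteBelow
    (s := cn G κ i b) (t := cn G κ j b) (fun w w' => cd G w w' < t)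
  unfold Finset.bipartiteAbove Finset.bipartiteBelow at h
  unfold qj
  rw [h]
  refine Finset.sum_congr rfl fun w _ => ?_
  congr 1
  apply Finset.filter_congr
  intro x _
  rw [cd_comm]

open Classical in
theorem class_card {V ι : Type} [Fintype V] {G : SimpleGraph V} {κ : V → V → ι} {r K : ℕ}
    (hhom : Hom G κ r K) (a b : V) (hab : G.Adj b a) :
    ((nb G b).image (κ b)).card ≤ r := by
  have h1 := Finset.card_eq_sum_card_image (κ b) (nb G b)
  have h2 : ((nb G b).image (κ b)).card * (nb G b).card ≤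
      ∑ j ∈ (nb G b).image (κ b), r * ((nb G b).filter (fun w => κ b w = j)).card := by
    rw [← smul_eq_mul, ← Finset.sum_const]
    apply Finset.sum_le_sum
    intro j hj
    obtain ⟨w, hw, rfl⟩ := Finset.mem_image.1 hj
    have h3 := hhom.big b w ((mem_nb G b w).1 hw)
    unfold cn at h3
    exact h3
  rw [← Finset.mul_sum, ← h1] at h2
  exact Nat.le_of_mul_le_mul_right h2 (Finset.card_pos.2 ⟨a, (mem_nb G b a).2 hab⟩)

open Classical in
/-- **Almost all walks of length two are heavy.** -/
theorem heavy_of_hom (m : ℕ) (F : SimpleGraph (Fin m)) (hF : F.IsAcyclic) (k : ℕ) (hk : 1 ≤ k)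
    (r K : ℕ) (hr : 1 ≤ r) (hK : 1 ≤ K) (ε : ℝ) (hε : 0 < ε) :
    ∃ δ : ℝ, 0 < δ ∧ ∃ d0 : ℝ, ∀ (V ι : Type) [Fintype V]
      (G : SimpleGraph V) (κ : V → V → ι) (d : ℝ), d0 ≤ d → 1 ≤ d → Le G d → Ge G K d →
      Hom G κ r K → G.CliqueFree (k + 1) → IsEmpty (F ↪g G) → Heavy G d ε δ := by
  have hrR : (1 : ℝ) ≤ r := by exact_mod_cast hr
  have hr0 : (0 : ℝ) < r := by linarith
  have hKR : (1 : ℝ) ≤ K := by exact_mod_cast hK
  have hK0 : (0 : ℝ) < K := by linarith
  set lam : ℝ := min 1 (ε / (4 * K ^ 4 * r ^ 2)) with hlam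
  have hlam0 : 0 < lam := by
    rw [hlam]
    exact lt_min one_pos (by positivity)
  have hlam1 : lam ≤ 1 := min_le_left _ _
  have hlamε : lam ≤ ε / (4 * K ^ 4 * r ^ 2) := min_le_right _ _
  obtain ⟨δ, hδ, hδ1, d0, hnb⟩ := no_both m F hF k hk r K hK lam hlam0 hlam1
  set δ' : ℝ := ε * δ ^ 2 / (36 * K ^ 7 * r ^ 3) with hδ'
  have hδ'0 : 0 < δ' := by positivity
  refine ⟨δ', hδ'0, max d0 (1 / δ'), ?_⟩
  intro V ι _ G κ d hd hd1 hreg hge hhom hfree hemp
  have hd0 : 0 < d := by linarith
  have hδd : 1 ≤ δ' * d := by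
    have := (le_max_right _ _).trans hd
    rw [div_le_iff₀ hδ'0] at this
    linarith
  have hB := hnb V ι G κ d ((le_max_left _ _).trans hd) hd1 hreg hhom hfree hemp
  have hself : ∀ i : ι, ∀ z x, G.Adj z x → κ z x = i →
      ((lj G κ i ⌈δ * d⌉₊ z x).card : ℝ) < lam * d := by
    intro i
    rcases hB i i with h | h
    · exact h
    · exact h
  intro a b hab
  obtain ⟨t', ht'⟩ : ∃ t' : ℕ, t' = ⌈δ' * d⌉₊ := ⟨_, rfl⟩
  have ht'b : (t' : ℝ) ≤ 2 * δ' * d := by
    have h1 : (t' : ℝ) ≤ δ' * d + 1 := by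
      rw [ht']
      exact (Nat.ceil_lt_add_one (by positivity)).le
    linarith
  obtain ⟨i, hi⟩ : ∃ i : ι, i = κ b a := ⟨_, rfl⟩
  -- the bound of `pairs` for the threshold `K * t'`
  set B : ℝ := K ^ 2 * (2 * lam * d ^ 2 + 9 * K ^ 2 * r * (K * t' : ℕ) * d / δ ^ 2) with hBdef
  have hB0 : 0 ≤ B := by positivity
  have hBle : K * B ≤ ε / (K * r ^ 2) * d ^ 2 := by
    have h1 : (K : ℝ) * B = K ^ 3 * (2 * lam * d ^ 2) + K ^ 6 * (9 * r * t' * d / δ ^ 2) := by
      rw [hBdef]
      push_cast
      ring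
    have h2 : (K : ℝ) ^ 3 * (2 * lam * d ^ 2) ≤ ε / (2 * K * r ^ 2) * d ^ 2 := by
      have h3 : (K : ℝ) ^ 3 * (2 * lam) ≤ ε / (2 * K * r ^ 2) := by
        calc (K : ℝ) ^ 3 * (2 * lam) ≤ K ^ 3 * (2 * (ε / (4 * K ^ 4 * r ^ 2))) := by
              apply mul_le_mul_of_nonneg_left _ (by positivity)
              linarith
          _ = ε / (2 * K * r ^ 2) := by
              field_simp
              ring
      calc (K : ℝ) ^ 3 * (2 * lam * d ^ 2) = (K ^ 3 * (2 * lam)) * d ^ 2 := by ring
        _ ≤ ε / (2 * K * r ^ 2) * d ^ 2 := mul_le_mul_of_nonneg_right h3 (by positivity)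
    have h4 : (K : ℝ) ^ 6 * (9 * r * t' * d / δ ^ 2) ≤ ε / (2 * K * r ^ 2) * d ^ 2 := by
      calc (K : ℝ) ^ 6 * (9 * r * t' * d / δ ^ 2) ≤
            K ^ 6 * (9 * r * (2 * δ' * d) * d / δ ^ 2) := by
            apply mul_le_mul_of_nonneg_left _ (by positivity)
            apply div_le_div_of_nonneg_right _ (by positivity)
            apply mul_le_mul_of_nonneg_right _ hd0.le
            apply mul_le_mul_of_nonneg_left ht'b (by positivity)
        _ = ε / (2 * K * r ^ 2) * d ^ 2 := by
            rw [hδ']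
            field_simp
            ring
    have h5 : ε / (K * r ^ 2) * d ^ 2 = ε / (2 * K * r ^ 2) * d ^ 2 + ε / (2 * K * r ^ 2) * d ^ 2 := by
      field_simp
      ring
    rw [h1, h5]
    linarith
  -- one class
  have hone : ∀ j : ι, ((cn G κ i b).card : ℝ) * (qj G κ j t' a b).card ≤
      ε / (K * r ^ 2) * d ^ 2 := by
    intro j
    refine le_trans ?_ hBle
    rcases hB i j with h | h
    · have h1 := pairs hreg hge hhom hd1 hδ hδ1 hlam0 i j t' (hself i) h a b hab.symm hi.symm
      refine h1.trans ?_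
      have h2 : (K : ℝ) ^ 2 * (2 * lam * d ^ 2 + 9 * K ^ 2 * r * t' * d / δ ^ 2) ≤ B := by
        rw [hBdef]
        apply mul_le_mul_of_nonneg_left _ (by positivity)
        have h3 : (t' : ℝ) ≤ ((K * t' : ℕ) : ℝ) := by
          exact_mod_cast Nat.le_mul_of_pos_left t' (by omega)
        have h4 : 9 * (K : ℝ) ^ 2 * r * t' * d / δ ^ 2 ≤
            9 * K ^ 2 * r * (K * t' : ℕ) * d / δ ^ 2 := by
          apply div_le_div_of_nonneg_right _ (by positivity)
          apply mul_le_mul_of_nonneg_right _ hd0.le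
          exact mul_le_mul_of_nonneg_left h3 (by positivity)
        linarith
      refine h2.trans ?_
      nlinarith
    · have h3 : (cn G κ i b).card * (qj G κ j t' a b).card ≤
          K * ∑ w ∈ cn G κ i b, (qj G κ j (K * t') w b).card := by
        rw [← smul_eq_mul, ← Finset.sum_const, Finset.mul_sum]
        refine Finset.sum_le_sum fun w hw => ?_
        rw [mem_cn] at hw
        refine hhom.qc a b w b hab hw.1.symm ?_ j t'
        exact hhom.rev b a b w hab.symm hw.1 (by rw [hw.2, hi])
      rw [swap_sum] at h3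
      have h3' : ((cn G κ i b).card : ℝ) * (qj G κ j t' a b).card ≤
          K * ∑ w ∈ cn G κ j b, ((qj G κ i (K * t') w b).card : ℝ) := by exact_mod_cast h3
      refine h3'.trans ?_
      apply mul_le_mul_of_nonneg_left _ hK0.le
      by_cases hne : (cn G κ j b).Nonempty
      · have hDj : (0 : ℝ) < (cn G κ j b).card := by exact_mod_cast Finset.card_pos.2 hne
        have h4 : ((cn G κ j b).card : ℝ) * ∑ w ∈ cn G κ j b,
            ((qj G κ i (K * t') w b).card : ℝ) ≤ (cn G κ j b).card * B := by
          rw [Finset.mul_sum]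
          calc ∑ w ∈ cn G κ j b, ((cn G κ j b).card : ℝ) * ((qj G κ i (K * t') w b).card : ℝ)
              ≤ ∑ w ∈ cn G κ j b, B := by
                refine Finset.sum_le_sum fun w hw => ?_
                rw [mem_cn] at hw
                exact pairs hreg hge hhom hd1 hδ hδ1 hlam0 j i (K * t') (hself j) h w b hw.1 hw.2
            _ = (cn G κ j b).card * B := by rw [Finset.sum_const, nsmul_eq_mul]
        exact le_of_mul_le_mul_left h4 hDj
      · rw [Finset.not_nonempty_iff_eq_empty] at hne
        rw [hne, Finset.sum_empty]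
        exact hB0
  have hbig : d ≤ K * (r * (cn G κ i b).card) := by
    have h1 := hhom.big b a hab.symm
    rw [← hi] at h1
    have h2 : ((nb G b).card : ℝ) ≤ r * (cn G κ i b).card := by exact_mod_cast h1
    exact (hge b ⟨a, (mem_nb G b a).2 hab.symm⟩).trans
      (mul_le_mul_of_nonneg_left h2 (Nat.cast_nonneg _))
  have hone' : ∀ j : ι, ((qj G κ j t' a b).card : ℝ) ≤ ε / r * d := by
    intro j
    have h1 := hone j
    have h2 : d * ((qj G κ j t' a b).card : ℝ) ≤ d * (ε / r * d) := by
      calc d * ((qj G κ j t' a b).card : ℝ) ≤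
            (K * (r * (cn G κ i b).card)) * ((qj G κ j t' a b).card : ℝ) :=
            mul_le_mul_of_nonneg_right hbig (Nat.cast_nonneg _)
        _ = (K * r) * (((cn G κ i b).card : ℝ) * (qj G κ j t' a b).card) := by ring
        _ ≤ (K * r) * (ε / (K * r ^ 2) * d ^ 2) := mul_le_mul_of_nonneg_left h1 (by positivity)
        _ = d * (ε / r * d) := by
            field_simp
    exact le_of_mul_le_mul_left h2 hd0
  -- all classes
  have hcl := class_card hhom a b hab.symm
  have hsub : (nb G b).filter (fun w => (cd G a w : ℝ) < δ' * d) ⊆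
      ((nb G b).image (κ b)).biUnion (fun j => qj G κ j t' a b) := by
    intro w hw
    obtain ⟨h1, h2⟩ := Finset.mem_filter.1 hw
    rw [Finset.mem_biUnion]
    refine ⟨κ b w, Finset.mem_image_of_mem _ h1, ?_⟩
    unfold qj
    refine Finset.mem_filter.2 ⟨(mem_cn G κ _ b w).2 ⟨(mem_nb G b w).1 h1, rfl⟩, ?_⟩
    rw [ht', Nat.lt_ceil]
    exact h2
  calc (((nb G b).filter (fun w => (cd G a w : ℝ) < δ' * d)).card : ℝ) ≤
        ((((nb G b).image (κ b)).biUnion (fun j => qj G κ j t' a b)).card : ℝ) := by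
        exact_mod_cast Finset.card_le_card hsub
    _ ≤ ∑ j ∈ (nb G b).image (κ b), ((qj G κ j t' a b).card : ℝ) := by
        exact_mod_cast Finset.card_biUnion_le
    _ ≤ ∑ j ∈ (nb G b).image (κ b), ε / r * d := Finset.sum_le_sum fun j _ => hone' j
    _ = (((nb G b).image (κ b)).card : ℝ) * (ε / r * d) := by
        rw [Finset.sum_const, nsmul_eq_mul]
    _ ≤ r * (ε / r * d) := by
        apply mul_le_mul_of_nonneg_right _ (by positivity)
        exact_mod_cast hcl
    _ = ε * d := by field_simp

open Classical in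
/-- the degrees of the nonisolated vertices are within the factor `K` -/
theorem deg_le {V ι : Type} [Fintype V] {G : SimpleGraph V} {κ : V → V → ι} {r K : ℕ}
    (hhom : Hom G κ r K) (u v : V) (hu : (nb G u).Nonempty) (hv : (nb G v).Nonempty) :
    (nb G u).card ≤ K * (nb G v).card := by
  have h1 := Finset.card_eq_sum_card_image (κ u) (nb G u)
  have h2 : ∑ j ∈ (nb G u).image (κ u), (cn G κ j v).card ≤ (nb G v).card := by
    have h3 : ∀ j ∈ (nb G u).image (κ u), ∀ l ∈ (nb G u).image (κ u), j ≠ l →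
        Disjoint (cn G κ j v) (cn G κ l v) := by
      intro j _ l _ hjl
      rw [Finset.disjoint_left]
      intro w hw hw'
      rw [mem_cn] at hw hw'
      exact hjl (hw.2.symm.trans hw'.2)
    rw [← Finset.card_biUnion h3]
    apply Finset.card_le_card
    intro w hw
    obtain ⟨j, _, hj⟩ := Finset.mem_biUnion.1 hw
    exact cn_sub G κ j v hj
  calc (nb G u).card = ∑ j ∈ (nb G u).image (κ u), (cn G κ j u).card := h1
    _ ≤ ∑ j ∈ (nb G u).image (κ u), K * (cn G κ j v).card :=
        Finset.sum_le_sum fun j _ => hhom.deg u v hu hv j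
    _ = K * ∑ j ∈ (nb G u).image (κ u), (cn G κ j v).card := by rw [← Finset.mul_sum]
    _ ≤ K * (nb G v).card := Nat.mul_le_mul_left _ h2

open Classical in
theorem exists_color (m : ℕ) (F : SimpleGraph (Fin m)) (hF : F.IsAcyclic) (k : ℕ) (hk : 1 ≤ k)
    (r K : ℕ) (hr : 1 ≤ r) (hK : 1 ≤ K) :
    ∃ C : ℕ, ∀ (V ι : Type) [Fintype V] (G : SimpleGraph V) (κ : V → V → ι), Hom G κ r K →
      G.CliqueFree (k + 1) → IsEmpty (F ↪g G) → G.Colorable C := by
  obtain ⟨N0, hN0⟩ := Pool.Agent.W259.GS.noShatter F hF.colorable_two (k + 1)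
  have hkR : (1 : ℝ) ≤ k := by exact_mod_cast hk
  have hk0 : (0 : ℝ) < k := by linarith
  have hrR : (1 : ℝ) ≤ r := by exact_mod_cast hr
  have hr0 : (0 : ℝ) < r := by linarith
  have hKR : (1 : ℝ) ≤ K := by exact_mod_cast hK
  have hK0 : (0 : ℝ) < K := by linarith
  have hE : ∀ ε : ℝ, ∃ δ : ℝ, 0 < δ ∧ ∃ d0 : ℝ, 0 < ε → ∀ (V ι : Type) [Fintype V]
      (G : SimpleGraph V) (κ : V → V → ι) (d : ℝ), d0 ≤ d → 1 ≤ d → Le G d → Ge G K d →
      Hom G κ r K → G.CliqueFree (k + 1) → IsEmpty (F ↪g G) → Heavy G d ε δ := by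
    intro ε
    by_cases hε : 0 < ε
    · obtain ⟨δ, hδ, d0, h⟩ := heavy_of_hom m F hF k hk r K hr hK ε hε
      exact ⟨δ, hδ, d0, fun _ => h⟩
    · exact ⟨1, one_pos, 0, fun h => absurd h hε⟩
  choose δf hδf D0 hD0 using hE
  obtain ⟨η, hη⟩ : ∃ η : ℝ, η = 1 / (2 * k * r * K ^ 2) := ⟨_, rfl⟩
  have hη0 : 0 < η := by
    rw [hη]
    positivity
  obtain ⟨C, d1, hC⟩ := colour' N0 δf D0 (fun ε _ => hδf ε) K η hη0 (by
    rw [hη, div_mul_eq_mul_div, div_lt_one (by positivity)]
    have h1 : (1 : ℝ) ≤ k * r := by nlinarith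
    have h2 : (K : ℝ) ≤ k * r * K := by nlinarith
    nlinarith)
  refine ⟨max C (⌈max d1 1⌉₊ + 1), ?_⟩
  intro V ι _ G κ hhom hfree hemp
  by_cases hedge : ∃ a b, G.Adj a b
  swap
  · push Not at hedge
    have : G.Colorable (0 + 1) := colorable_of_deg G 0 (by
      intro v
      rw [Nat.le_zero, Finset.card_eq_zero, Finset.eq_empty_iff_forall_notMem]
      intro w hw
      exact hedge v w ((mem_nb G v w).1 hw))
    exact this.mono (le_trans (by omega) (le_max_right _ _))
  obtain ⟨a0, b0, hab0⟩ := hedge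
  obtain ⟨vm, _, hvm⟩ := Finset.exists_max_image (univ : Finset V) (fun v => (nb G v).card)
    ⟨a0, Finset.mem_univ _⟩
  obtain ⟨D, hD⟩ : ∃ D : ℕ, D = (nb G vm).card := ⟨_, rfl⟩
  have hD1 : 1 ≤ D := by
    rw [hD]
    exact (Finset.card_pos.2 ⟨b0, (mem_nb G a0 b0).2 hab0⟩).trans_le (hvm a0 (Finset.mem_univ _))
  have hvmne : (nb G vm).Nonempty := by
    rw [← Finset.card_pos, ← hD]
    exact hD1
  have hle : Le G (D : ℝ) := by
    intro v
    rw [hD]
    exact_mod_cast hvm v (Finset.mem_univ _)
  have hge : Ge G K (D : ℝ) := by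
    intro v hv
    rw [hD]
    exact_mod_cast deg_le hhom vm v hvmne hv
  by_cases hbig : max d1 1 ≤ (D : ℝ)
  · have hd1 : d1 ≤ (D : ℝ) := (le_max_left _ _).trans hbig
    have hD1R : (1 : ℝ) ≤ (D : ℝ) := (le_max_right _ _).trans hbig
    have hD0R : (0 : ℝ) < D := by linarith
    have hcol := hC V G D hd1 hD1R hle hge
      (fun ε hε hD0' => hD0 ε hε V ι G κ D hD0' hD1R hle hge hhom hfree hemp)
      (fun X hX => hN0 V G X hfree hemp hX) (by
        intro v v' hvv'
        by_contra hcon
        push Not at hcon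
        obtain ⟨L, hLd⟩ : ∃ L, L = cn G κ (κ v v') v := ⟨_, rfl⟩
        have hL : ∀ w ∈ L, G.Adj v w := by
          intro w hw
          rw [hLd, mem_cn] at hw
          exact hw.1
        have hvne : (nb G v).Nonempty := ⟨v', (mem_nb G v v').2 hvv'⟩
        have hvc := hge v hvne
        have hLc : ((nb G v).card : ℝ) ≤ r * (L.card : ℝ) := by
          rw [hLd]
          exact_mod_cast hhom.big v v' hvv'
        have hDL : (D : ℝ) ≤ K * (r * (L.card : ℝ)) :=
          hvc.trans (mul_le_mul_of_nonneg_left hLc hK0.le)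
        have hLpos : (0 : ℝ) < (L.card : ℝ) := by
          by_contra h
          push Not at h
          have h' : (K : ℝ) * (r * (L.card : ℝ)) ≤ 0 := by
            have : (r : ℝ) * (L.card : ℝ) ≤ 0 := mul_nonpos_of_nonneg_of_nonpos hr0.le h
            exact mul_nonpos_of_nonneg_of_nonpos hK0.le this
          linarith
        have hdef : ∀ w, (((nb G v).filter (fun y => ¬ G.Adj w y)).card : ℕ) + cd G v w =
            (nb G v).card := by
          intro w
          have h1 := Finset.card_filter_add_card_filter_not (s := nb G v) (fun y => G.Adj w y)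
          have h2 : cd G v w = ((nb G v).filter (fun y => G.Adj w y)).card := by
            unfold cd nb
            rw [Finset.filter_filter]
          omega
        have h0 : (((nb G v).card - cd G v v' : ℕ) : ℝ) ≤ 2 * η * D := by
          refine le_trans ?_ hcon.le
          have h1 := hdef v'
          have h2 : (nb G v).card - cd G v v' = ((nb G v).filter (fun y => ¬ G.Adj v' y)).card := by
            omega
          rw [h2]
          unfold sd
          have h3 : (nb G v).filter (fun y => ¬ G.Adj v' y) ⊆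
              (univ : Finset V).filter (fun w => ¬ (G.Adj v w ↔ G.Adj v' w)) := by
            intro y hy
            obtain ⟨h4, h5⟩ := Finset.mem_filter.1 hy
            rw [mem_nb] at h4
            exact Finset.mem_filter.2 ⟨Finset.mem_univ _, fun h => h5 (h.1 h4)⟩
          exact_mod_cast Finset.card_le_card h3
        have h1 := few_dense G k hfree v L hL L (Finset.Subset.refl _) (by
          intro w hw
          have hw' := hw
          rw [hLd, mem_cn] at hw'
          have h2 := hhom.cod v w v v' hw'.1 hvv' hw'.2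
          have h3 : (L.filter (fun y => ¬ G.Adj w y)).card ≤ (nb G v).card - cd G v w := by
            have h4 := hdef w
            have h5 : L.filter (fun y => ¬ G.Adj w y) ⊆
                (nb G v).filter (fun y => ¬ G.Adj w y) := by
              apply Finset.filter_subset_filter
              intro y hy
              exact (mem_nb G v y).2 (hL y hy)
            have h6 := Finset.card_le_card h5
            omega
          have h4 : ((L.filter (fun y => ¬ G.Adj w y)).card : ℝ) ≤
              K * (((nb G v).card - cd G v v' : ℕ) : ℝ) := by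
            exact_mod_cast h3.trans h2
          calc (k : ℝ) * ((L.filter (fun y => ¬ G.Adj w y)).card : ℝ) ≤
                k * (K * (2 * η * D)) := by
                apply mul_le_mul_of_nonneg_left _ hk0.le
                exact h4.trans (mul_le_mul_of_nonneg_left h0 hK0.le)
            _ ≤ k * (K * (2 * η * (K * (r * (L.card : ℝ))))) := by
                apply mul_le_mul_of_nonneg_left _ hk0.le
                apply mul_le_mul_of_nonneg_left _ hK0.le
                exact mul_le_mul_of_nonneg_left hDL (by positivity)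
            _ = L.card := by
                rw [hη]
                field_simp)
        nlinarith)
    exact hcol.mono (le_max_left _ _)
  · push Not at hbig
    have hDle : D ≤ ⌈max d1 1⌉₊ := by
      have : (D : ℝ) ≤ ⌈max d1 1⌉₊ := hbig.le.trans (Nat.le_ceil _)
      exact_mod_cast this
    have : G.Colorable (⌈max d1 1⌉₊ + 1) := colorable_of_deg G _ (by
      intro v
      have h1 := hvm v (Finset.mem_univ _)
      have h2 : (nb G v).card ≤ (nb G vm).card := h1
      omega)
    exact this.mono (le_max_right _ _)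

end Pool.Agent.X228.GS
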